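import Mathlib

open Equiv Finset

namespace Pool.Agent.Q298.Neck

section basic
set_option linter.unusedSectionVars false
variable {V : Type*} [Fintype V] [DecidableEq V]

/-- The colouring `σ` separates the pairs of the partial matching encoded by the involution `τ`. -/
def Ok (τ : Perm V) (σ : V → Bool) : Prop := ∀ v, τ v ≠ v → σ (τ v) ≠ σ v

/-- Involutions. -/
def Inv (τ : Perm V) : Prop := ∀ v, τ (τ v) = v

/-- The smallest cost of a colouring separating the pairs of `τ`. -/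
noncomputable def F (c : (V → Bool) → ℕ) (τ : Perm V) : ℕ := sInf {k | ∃ σ, Ok τ σ ∧ c σ = k}

lemma exists_ok {τ : Perm V} (hτ : Inv τ) : ∃ σ, Ok τ σ := by
  classical
  let e := Fintype.equivFin V
  refine ⟨fun v => decide (e v < e (τ v)), fun v hv => ?_⟩
  simp only [ne_eq, decide_eq_decide]
  rw [hτ v]
  have hne : e (τ v) ≠ e v := fun h => hv (e.injective h)
  intro h
  rcases lt_or_gt_of_ne hne with h1 | h1
  · exact absurd (h.1 h1) (not_lt.2 h1.le)
  · exact absurd (h.2 h1) (not_lt.2 h1.le)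

lemma F_spec (c : (V → Bool) → ℕ) {τ : Perm V} (hτ : Inv τ) : ∃ σ, Ok τ σ ∧ c σ = F c τ := by
  have : {k | ∃ σ, Ok τ σ ∧ c σ = k}.Nonempty := by
    obtain ⟨σ, hσ⟩ := exists_ok hτ
    exact ⟨c σ, σ, hσ, rfl⟩
  exact Nat.sInf_mem this

lemma F_le (c : (V → Bool) → ℕ) {τ : Perm V} {σ : V → Bool} (h : Ok τ σ) : F c τ ≤ c σ :=
  Nat.sInf_le ⟨σ, h, rfl⟩

/-- Flipping one value changes the cost by at most two. -/
def FlipLip (c : (V → Bool) → ℕ) : Prop := ∀ σ v, c (Function.update σ v (!(σ v))) ≤ c σ + 2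

lemma Inv.mul_swap {τ : Perm V} (hτ : Inv τ) {i j : V} (hi : τ i = i) (hj : τ j = j) :
    Inv (τ * swap i j) := by
  intro v
  simp only [Perm.mul_apply]
  by_cases h1 : v = i
  · subst h1
    rw [swap_apply_left, hj, swap_apply_right, hi]
  by_cases h2 : v = j
  · subst h2
    rw [swap_apply_right, hi, swap_apply_left, hj]
  · rw [swap_apply_of_ne_of_ne h1 h2]
    have h3 : τ v ≠ i := fun h => h1 (by rw [← hτ v, h, hi])
    have h4 : τ v ≠ j := fun h => h2 (by rw [← hτ v, h, hj])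
    rw [swap_apply_of_ne_of_ne h3 h4, hτ]

lemma ok_mul_swap {τ : Perm V} (_hτ : Inv τ) {i j : V} (hi : τ i = i) (hj : τ j = j)
    (hij : i ≠ j) (σ : V → Bool) : Ok (τ * swap i j) σ ↔ Ok τ σ ∧ σ i ≠ σ j := by
  constructor
  · intro h
    constructor
    · intro v hv
      have h1 : v ≠ i := by rintro rfl; exact hv hi
      have h2 : v ≠ j := by rintro rfl; exact hv hj
      have := h v
      rw [Perm.mul_apply, swap_apply_of_ne_of_ne h1 h2] at this
      exact this hv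
    · have := h i
      rw [Perm.mul_apply, swap_apply_left, hj] at this
      exact (this hij.symm).symm
  · rintro ⟨h1, h2⟩ v hv
    rw [Perm.mul_apply] at hv ⊢
    by_cases h3 : v = i
    · subst h3
      rw [swap_apply_left, hj]
      exact h2.symm
    by_cases h4 : v = j
    · subst h4
      rw [swap_apply_right, hi]
      exact h2
    · rw [swap_apply_of_ne_of_ne h3 h4] at hv ⊢
      exact h1 v hv

lemma F_mono (c : (V → Bool) → ℕ) {τ : Perm V} (hτ : Inv τ) {i j : V} (hi : τ i = i)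
    (hj : τ j = j) (hij : i ≠ j) : F c τ ≤ F c (τ * swap i j) := by
  obtain ⟨σ, h1, h2⟩ := F_spec c (hτ.mul_swap hi hj)
  rw [← h2]
  exact F_le c ((ok_mul_swap hτ hi hj hij σ).1 h1).1

lemma F_add_two {c : (V → Bool) → ℕ} (hc : FlipLip c) {τ : Perm V} (hτ : Inv τ) {i j : V}
    (hi : τ i = i) (hj : τ j = j) (hij : i ≠ j) : F c (τ * swap i j) ≤ F c τ + 2 := by
  obtain ⟨σ, h1, h2⟩ := F_spec c hτ
  rw [← h2]
  by_cases hs : σ i = σ j
  · refine le_trans (F_le c (σ := Function.update σ i (!(σ i))) ?_) (hc σ i)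
    rw [ok_mul_swap hτ hi hj hij]
    constructor
    · intro v hv
      have h3 : v ≠ i := by rintro rfl; exact hv hi
      have h4 : τ v ≠ i := fun h => h3 (by rw [← hτ v, h, hi])
      rw [Function.update_of_ne h4, Function.update_of_ne h3]
      exact h1 v hv
    · rw [Function.update_self, Function.update_of_ne hij.symm, ← hs]
      cases σ i <;> simp
  · exact le_trans (F_le c ((ok_mul_swap hτ hi hj hij σ).2 ⟨h1, hs⟩)) (by omega)

/-- Vertices with equal colours in all colourings of cost less than the minimum plus `m`. -/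
def rel (c : (V → Bool) → ℕ) (τ : Perm V) (m : ℕ) (i j : V) : Prop :=
  ∀ σ, Ok τ σ → c σ < F c τ + m → σ i = σ j

lemma rel_equiv (c : (V → Bool) → ℕ) (τ : Perm V) (m : ℕ) : Equivalence (rel c τ m) where
  refl _ _ _ _ := rfl
  symm h σ h1 h2 := (h σ h1 h2).symm
  trans h h' σ h1 h2 := (h σ h1 h2).trans (h' σ h1 h2)

lemma rel_iff (c : (V → Bool) → ℕ) {τ : Perm V} (hτ : Inv τ) (m : ℕ) {i j : V} (hi : τ i = i)
    (hj : τ j = j) (hij : i ≠ j) : rel c τ m i j ↔ F c τ + m ≤ F c (τ * swap i j) := by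
  constructor
  · intro h
    obtain ⟨σ, h1, h2⟩ := F_spec c (hτ.mul_swap hi hj)
    rw [ok_mul_swap hτ hi hj hij] at h1
    rw [← h2]
    by_contra hlt
    exact h1.2 (h σ h1.1 (not_le.1 hlt))
  · intro h σ h1 h2
    by_contra hne
    have := F_le c ((ok_mul_swap hτ hi hj hij σ).2 ⟨h1, hne⟩)
    omega

open Classical in
/-- The increment caused by a new pair. -/
lemma F_swap_eq {c : (V → Bool) → ℕ} (hc : FlipLip c) {τ : Perm V} (hτ : Inv τ) {i j : V}
    (hi : τ i = i) (hj : τ j = j) (hij : i ≠ j) :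
    (F c (τ * swap i j) : ℝ) = F c τ + (if rel c τ 1 i j then 1 else 0) +
      (if rel c τ 2 i j then 1 else 0) := by
  have h1 := F_mono c hτ hi hj hij
  have h2 := F_add_two hc hτ hi hj hij
  have r1 := rel_iff c hτ 1 hi hj hij
  have r2 := rel_iff c hτ 2 hi hj hij
  have h3 : F c (τ * swap i j) = F c τ ∨ F c (τ * swap i j) = F c τ + 1 ∨
      F c (τ * swap i j) = F c τ + 2 := by omega
  rcases h3 with h | h | h
  · rw [if_neg (by rw [r1, h]; omega), if_neg (by rw [r2, h]; omega), h]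
    simp
  · rw [if_pos (by rw [r1, h]), if_neg (by rw [r2, h]; omega), h]
    push_cast; ring
  · rw [if_pos (by rw [r1, h]; omega), if_pos (by rw [r2, h]), h]
    push_cast; ring

end basic

section psd
variable {V : Type*} [Fintype V] [DecidableEq V]

open Classical in
lemma psd_fun {W : Type*} [Fintype W] (f : V → W) (P Q : Finset V) (p q : ℝ) :
    2 * ((∑ i ∈ P, ∑ j ∈ Q, if f i = f j then (1 : ℝ) else 0) * (p * q)) ≤
      (∑ i ∈ P, ∑ j ∈ P, if f i = f j then (1 : ℝ) else 0) * p ^ 2 +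
      (∑ i ∈ Q, ∑ j ∈ Q, if f i = f j then (1 : ℝ) else 0) * q ^ 2 := by
  have key : ∀ A B : Finset V, (∑ i ∈ A, ∑ j ∈ B, if f i = f j then (1 : ℝ) else 0) =
      ∑ z, (∑ i ∈ A, if f i = z then (1 : ℝ) else 0) * (∑ j ∈ B, if f j = z then (1 : ℝ) else 0) := by
    intro A B
    simp_rw [Finset.sum_mul_sum]
    conv_rhs => rw [Finset.sum_comm]
    refine Finset.sum_congr rfl fun i _ => ?_
    conv_rhs => rw [Finset.sum_comm]
    refine Finset.sum_congr rfl fun j _ => ?_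
    rw [Finset.sum_eq_single (f i)]
    · simp only [if_true, one_mul]
      by_cases h : f i = f j
      · rw [if_pos h, if_pos h.symm]
      · rw [if_neg h, if_neg (fun h' => h h'.symm)]
    · intro z _ hz
      rw [if_neg (fun h => hz h.symm), zero_mul]
    · intro h
      exact absurd (Finset.mem_univ _) h
  rw [key P Q, key P P, key Q Q]
  rw [Finset.sum_mul, Finset.sum_mul, Finset.sum_mul, Finset.mul_sum, ← Finset.sum_add_distrib]
  refine Finset.sum_le_sum fun z _ => ?_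
  nlinarith [sq_nonneg ((∑ i ∈ P, if f i = z then (1 : ℝ) else 0) * p -
    (∑ i ∈ Q, if f i = z then (1 : ℝ) else 0) * q)]

open Classical in
lemma psd_rel {r : V → V → Prop} (hr : Equivalence r) (P Q : Finset V) (p q : ℝ) :
    2 * ((∑ i ∈ P, ∑ j ∈ Q, if r i j then (1 : ℝ) else 0) * (p * q)) ≤
      (∑ i ∈ P, ∑ j ∈ P, if r i j then (1 : ℝ) else 0) * p ^ 2 +
      (∑ i ∈ Q, ∑ j ∈ Q, if r i j then (1 : ℝ) else 0) * q ^ 2 := by
  let s : Setoid V := ⟨r, hr⟩
  have h := psd_fun (fun v => (Quotient.mk s v : Quotient s)) P Q p q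
  have e : ∀ (i j : V) (inst : Decidable ((Quotient.mk s i : Quotient s) = Quotient.mk s j)),
      (@ite ℝ ((Quotient.mk s i : Quotient s) = Quotient.mk s j) inst 1 0) =
      if r i j then (1 : ℝ) else 0 := by
    intro i j inst
    have : (Quotient.mk s i : Quotient s) = Quotient.mk s j ↔ r i j := Quotient.eq (r := s)
    by_cases h : r i j
    · rw [if_pos h, if_pos (this.2 h)]
    · rw [if_neg h, if_neg (fun h' => h (this.1 h'))]
  beta_reduce at h
  simp_rw [e] at h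
  exact h

open Classical in
/-- Averages of a reflexive relation over distinct pairs. -/
lemma diag_le {r : V → V → Prop} (hr : Equivalence r) {P : Finset V} (hP : 2 ≤ #P) :
    (∑ i ∈ P, ∑ j ∈ P, if r i j then (1 : ℝ) else 0) * ((#P : ℝ)⁻¹) ^ 2 ≤
      (∑ i ∈ P, ∑ j ∈ P.erase i, if r i j then (1 : ℝ) else 0) * ((#P : ℝ) * (#P - 1))⁻¹ +
        (#P : ℝ)⁻¹ := by
  have hp : (2 : ℝ) ≤ #P := by exact_mod_cast hP
  have h1 : (∑ i ∈ P, ∑ j ∈ P, if r i j then (1 : ℝ) else 0) =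
      (∑ i ∈ P, ∑ j ∈ P.erase i, if r i j then (1 : ℝ) else 0) + #P := by
    have : ∀ i ∈ P, (∑ j ∈ P, if r i j then (1 : ℝ) else 0) =
        (∑ j ∈ P.erase i, if r i j then (1 : ℝ) else 0) + 1 := by
      intro i hi
      rw [← Finset.sum_erase_add _ _ hi, if_pos (hr.refl i)]
    rw [Finset.sum_congr rfl this, Finset.sum_add_distrib]
    simp
  set S := ∑ i ∈ P, ∑ j ∈ P.erase i, if r i j then (1 : ℝ) else 0 with hS
  have hS0 : 0 ≤ S := Finset.sum_nonneg fun i _ => Finset.sum_nonneg fun j _ => by positivity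
  rw [h1, add_mul]
  have e1 : (#P : ℝ) * ((#P : ℝ)⁻¹) ^ 2 = (#P : ℝ)⁻¹ := by
    field_simp
  rw [e1]
  have e2 : ((#P : ℝ)⁻¹) ^ 2 ≤ ((#P : ℝ) * (#P - 1))⁻¹ := by
    rw [inv_pow]
    apply inv_anti₀ (by nlinarith)
    nlinarith
  have := mul_le_mul_of_nonneg_left e2 hS0
  linarith

end psd

section step
set_option linter.unusedSectionVars false
variable {V : Type*} [Fintype V] [DecidableEq V]

/-- Average over distinct ordered pairs of a finite set. -/
noncomputable def avp (P : Finset V) (f : V → V → ℝ) : ℝ :=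
  (∑ i ∈ P, ∑ j ∈ P.erase i, f i j) * ((#P : ℝ) * (#P - 1))⁻¹

lemma sum_erase_const {P : Finset V} (a : ℝ) :
    ∑ i ∈ P, ∑ _j ∈ P.erase i, a = (#P : ℝ) * (#P - 1) * a := by
  rcases P.eq_empty_or_nonempty with rfl | hne
  · simp
  have : ∀ i ∈ P, ∑ _j ∈ P.erase i, a = (#P - 1 : ℝ) * a := by
    intro i hi
    rw [Finset.sum_const, Finset.card_erase_of_mem hi, nsmul_eq_mul,
      Nat.cast_sub (Finset.card_pos.2 hne), Nat.cast_one]
  rw [Finset.sum_congr rfl this, Finset.sum_const, nsmul_eq_mul]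
  ring

lemma avp_le {P : Finset V} (hP : 2 ≤ #P) {f : V → V → ℝ} {a : ℝ}
    (h : ∀ i ∈ P, ∀ j ∈ P, i ≠ j → f i j ≤ a) : avp P f ≤ a := by
  unfold avp
  have hp : (2 : ℝ) ≤ #P := by exact_mod_cast hP
  have hpos : (0 : ℝ) < (#P : ℝ) * (#P - 1) := by nlinarith
  rw [mul_inv_le_iff₀ hpos]
  calc ∑ i ∈ P, ∑ j ∈ P.erase i, f i j ≤ ∑ i ∈ P, ∑ _j ∈ P.erase i, a := by
        refine Finset.sum_le_sum fun i hi => Finset.sum_le_sum fun j hj => ?_
        exact h i hi j (Finset.mem_of_mem_erase hj) (Finset.ne_of_mem_erase hj).symm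
    _ = a * ((#P : ℝ) * (#P - 1)) := by rw [sum_erase_const]; ring

/-- The interpolation inequality: a mixed pair costs at most the average of an inner pair on
each side, up to a small error. -/
lemma step_F {c : (V → Bool) → ℕ} (hc : FlipLip c) {τ : Perm V} (hτ : Inv τ)
    {P Q : Finset V} (hPQ : Disjoint P Q) (hP : ∀ i ∈ P, τ i = i) (hQ : ∀ j ∈ Q, τ j = j)
    (hP2 : 2 ≤ #P) (hQ2 : 2 ≤ #Q) :
    (∑ i ∈ P, ∑ j ∈ Q, (F c (τ * swap i j) : ℝ)) * ((#P : ℝ) * #Q)⁻¹ ≤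
      (avp P (fun i j => (F c (τ * swap i j) : ℝ)) +
        avp Q (fun i j => (F c (τ * swap i j) : ℝ))) / 2 + (#P : ℝ)⁻¹ + (#Q : ℝ)⁻¹ := by
  classical
  have hp : (2 : ℝ) ≤ #P := by exact_mod_cast hP2
  have hq : (2 : ℝ) ≤ #Q := by exact_mod_cast hQ2
  set r1 : V → V → ℝ := fun i j => if rel c τ 1 i j then 1 else 0 with hr1
  set r2 : V → V → ℝ := fun i j => if rel c τ 2 i j then 1 else 0 with hr2
  have e1 : (∑ i ∈ P, ∑ j ∈ Q, (F c (τ * swap i j) : ℝ)) =
      (#P : ℝ) * #Q * F c τ + (∑ i ∈ P, ∑ j ∈ Q, r1 i j) + ∑ i ∈ P, ∑ j ∈ Q, r2 i j := by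
    have : ∀ i ∈ P, ∀ j ∈ Q, (F c (τ * swap i j) : ℝ) = F c τ + r1 i j + r2 i j := by
      intro i hi j hj
      have hij : i ≠ j := fun h => Finset.disjoint_left.1 hPQ hi (h ▸ hj)
      exact F_swap_eq hc hτ (hP i hi) (hQ j hj) hij
    rw [Finset.sum_congr rfl fun i hi => Finset.sum_congr rfl fun j hj => this i hi j hj]
    simp only [Finset.sum_add_distrib, Finset.sum_const, nsmul_eq_mul]
    ring
  have e2 : ∀ S : Finset V, (∀ i ∈ S, τ i = i) → 2 ≤ #S →
      avp S (fun i j => (F c (τ * swap i j) : ℝ)) =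
      F c τ + (∑ i ∈ S, ∑ j ∈ S.erase i, r1 i j) * ((#S : ℝ) * (#S - 1))⁻¹ +
        (∑ i ∈ S, ∑ j ∈ S.erase i, r2 i j) * ((#S : ℝ) * (#S - 1))⁻¹ := by
    intro S hS hS2
    unfold avp
    have hs : (2 : ℝ) ≤ #S := by exact_mod_cast hS2
    have hpos : (#S : ℝ) * (#S - 1) ≠ 0 := by
      have : (0 : ℝ) < (#S : ℝ) * (#S - 1) := by nlinarith
      exact this.ne'
    have : ∀ i ∈ S, ∀ j ∈ S.erase i, (F c (τ * swap i j) : ℝ) = F c τ + r1 i j + r2 i j := by
      intro i hi j hj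
      exact F_swap_eq hc hτ (hS i hi) (hS j (Finset.mem_of_mem_erase hj))
        (Finset.ne_of_mem_erase hj).symm
    rw [Finset.sum_congr rfl fun i hi => Finset.sum_congr rfl fun j hj => this i hi j hj]
    simp only [Finset.sum_add_distrib]
    rw [sum_erase_const, add_mul, add_mul]
    rw [mul_comm ((#S : ℝ) * (#S - 1)) (F c τ : ℝ), mul_assoc (F c τ : ℝ), mul_inv_cancel₀ hpos,
      mul_one]
  have q1 := psd_rel (rel_equiv c τ 1) P Q (#P : ℝ)⁻¹ (#Q : ℝ)⁻¹
  have q2 := psd_rel (rel_equiv c τ 2) P Q (#P : ℝ)⁻¹ (#Q : ℝ)⁻¹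
  have d1 := diag_le (rel_equiv c τ 1) hP2
  have d2 := diag_le (rel_equiv c τ 2) hP2
  have d3 := diag_le (rel_equiv c τ 1) hQ2
  have d4 := diag_le (rel_equiv c τ 2) hQ2
  rw [e1, e2 P hP hP2, e2 Q hQ hQ2]
  have e3 : ((#P : ℝ) * #Q)⁻¹ = (#P : ℝ)⁻¹ * (#Q : ℝ)⁻¹ := by
    rw [mul_inv]
  have e4 : ((#P : ℝ) * #Q * F c τ) * ((#P : ℝ) * #Q)⁻¹ = F c τ := by
    field_simp
  rw [add_mul, add_mul, e4, e3]
  simp only [hr1, hr2]
  linarith

end step

end Pool.Agent.Q298.Neck
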