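import Mathlib
import Pool.Agent.Q298.Neck.Basic

open Equiv Finset

namespace Pool.Agent.Q298.Neck

set_option linter.unusedSectionVars false

section conj
variable {V : Type*} [Fintype V] [DecidableEq V]

lemma inv_apply_self' {V : Type*} (h : Perm V) (v : V) : h⁻¹ (h v) = v := by
  exact h.symm_apply_apply v

/-- Transported cost. -/
def cc (c : (V → Bool) → ℕ) (h : Perm V) : (V → Bool) → ℕ := fun σ => c (fun v => σ (h⁻¹ v))

lemma F_conj (c : (V → Bool) → ℕ) (h τ : Perm V) : F c (h * τ * h⁻¹) = F (cc c h) τ := by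
  unfold F
  congr 1
  ext k
  constructor
  · rintro ⟨σ, h1, h2⟩
    refine ⟨fun v => σ (h v), ?_, ?_⟩
    · intro v hv
      have := h1 (h v)
      simp only [Perm.mul_apply, inv_apply_self'] at this
      exact this (fun h' => hv (h.injective h'))
    · rw [← h2]
      unfold cc
      congr 1
      funext v
      simp
  · rintro ⟨σ, h1, h2⟩
    refine ⟨fun v => σ (h⁻¹ v), ?_, h2⟩
    intro v hv
    simp only [Perm.mul_apply] at hv ⊢
    have := h1 (h⁻¹ v)
    simp only [inv_apply_self'] at this ⊢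
    refine this (fun h' => hv ?_)
    rw [h']
    simp

lemma cc_flipLip {c : (V → Bool) → ℕ} (hc : FlipLip c) (h : Perm V) : FlipLip (cc c h) := by
  intro σ v
  unfold cc
  have := hc (fun w => σ (h⁻¹ w)) (h v)
  simp only [inv_apply_self'] at this
  convert this using 2
  funext w
  by_cases hw : w = h v
  · subst hw
    simp
  · rw [Function.update_of_ne hw, Function.update_of_ne]
    intro h'
    apply hw
    rw [← h']
    simp

lemma cc_cc (c : (V → Bool) → ℕ) (g h : Perm V) : cc c (g * h) = cc (cc c g) h := by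
  funext σ
  unfold cc
  congr 1

end conj

section avg
variable {V : Type*} [Fintype V] [DecidableEq V] {I : Type*} [Fintype I]

/-- Average of the functionals over a finite family of costs. -/
noncomputable def Av (c : I → (V → Bool) → ℕ) (τ : Perm V) : ℝ :=
  (∑ ρ, (F (c ρ) τ : ℝ)) / Fintype.card I

lemma Av_mono (c : I → (V → Bool) → ℕ) {τ : Perm V} (hτ : Inv τ) {i j : V} (hi : τ i = i)
    (hj : τ j = j) (hij : i ≠ j) : Av c τ ≤ Av c (τ * swap i j) := by
  unfold Av
  apply div_le_div_of_nonneg_right _ (by positivity)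
  exact Finset.sum_le_sum fun ρ _ => by exact_mod_cast F_mono (c ρ) hτ hi hj hij

lemma Av_add_two [Nonempty I] {c : I → (V → Bool) → ℕ} (hc : ∀ ρ, FlipLip (c ρ)) {τ : Perm V}
    (hτ : Inv τ) {i j : V} (hi : τ i = i) (hj : τ j = j) (hij : i ≠ j) :
    Av c (τ * swap i j) ≤ Av c τ + 2 := by
  unfold Av
  have hN : (0 : ℝ) < Fintype.card I := by exact_mod_cast Fintype.card_pos
  rw [div_add' _ _ _ hN.ne']
  apply div_le_div_of_nonneg_right _ hN.le
  calc ∑ ρ, (F (c ρ) (τ * swap i j) : ℝ) ≤ ∑ ρ, ((F (c ρ) τ : ℝ) + 2) :=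
        Finset.sum_le_sum fun ρ _ => by exact_mod_cast F_add_two (hc ρ) hτ hi hj hij
    _ = ∑ ρ, (F (c ρ) τ : ℝ) + 2 * Fintype.card I := by
        rw [Finset.sum_add_distrib]; simp; ring

lemma sum3_comm (P : Finset V) (Q : V → Finset V) (f : V → V → I → ℝ) :
    ∑ ρ, ∑ i ∈ P, ∑ j ∈ Q i, f i j ρ = ∑ i ∈ P, ∑ j ∈ Q i, ∑ ρ, f i j ρ := by
  rw [Finset.sum_comm]
  refine Finset.sum_congr rfl fun i _ => ?_
  rw [Finset.sum_comm]

lemma Av_step [Nonempty I] {c : I → (V → Bool) → ℕ} (hc : ∀ ρ, FlipLip (c ρ)) {τ : Perm V}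
    (hτ : Inv τ)
    {P Q : Finset V} (hPQ : Disjoint P Q) (hP : ∀ i ∈ P, τ i = i) (hQ : ∀ j ∈ Q, τ j = j)
    (hP2 : 2 ≤ #P) (hQ2 : 2 ≤ #Q) :
    (∑ i ∈ P, ∑ j ∈ Q, Av c (τ * swap i j)) * ((#P : ℝ) * #Q)⁻¹ ≤
      (avp P (fun i j => Av c (τ * swap i j)) +
        avp Q (fun i j => Av c (τ * swap i j))) / 2 + (#P : ℝ)⁻¹ + (#Q : ℝ)⁻¹ := by
  have hN : (0 : ℝ) < Fintype.card I := by exact_mod_cast Fintype.card_pos
  have e1 : (∑ i ∈ P, ∑ j ∈ Q, Av c (τ * swap i j)) * ((#P : ℝ) * #Q)⁻¹ =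
      (∑ ρ, (∑ i ∈ P, ∑ j ∈ Q, (F (c ρ) (τ * swap i j) : ℝ)) * ((#P : ℝ) * #Q)⁻¹) /
        Fintype.card I := by
    have h1 : ∑ i ∈ P, ∑ j ∈ Q, Av c (τ * swap i j) =
        (∑ ρ, ∑ i ∈ P, ∑ j ∈ Q, (F (c ρ) (τ * swap i j) : ℝ)) / Fintype.card I := by
      rw [sum3_comm P (fun _ => Q) (fun i j ρ => (F (c ρ) (τ * swap i j) : ℝ)), Finset.sum_div]
      refine Finset.sum_congr rfl fun i _ => ?_
      rw [Finset.sum_div]
      rfl
    rw [h1, ← Finset.sum_mul]
    ring
  have e2 : ∀ S : Finset V, avp S (fun i j => Av c (τ * swap i j)) =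
      (∑ ρ, avp S (fun i j => (F (c ρ) (τ * swap i j) : ℝ))) / Fintype.card I := by
    intro S
    unfold avp
    have h1 : ∑ i ∈ S, ∑ j ∈ S.erase i, Av c (τ * swap i j) =
        (∑ ρ, ∑ i ∈ S, ∑ j ∈ S.erase i, (F (c ρ) (τ * swap i j) : ℝ)) / Fintype.card I := by
      rw [sum3_comm S (fun i => S.erase i) (fun i j ρ => (F (c ρ) (τ * swap i j) : ℝ)),
        Finset.sum_div]
      refine Finset.sum_congr rfl fun i _ => ?_
      rw [Finset.sum_div]
      rfl
    rw [h1, ← Finset.sum_mul]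
    ring
  rw [e1, e2 P, e2 Q]
  have e3 : ((∑ ρ, avp P (fun i j => (F (c ρ) (τ * swap i j) : ℝ))) / Fintype.card I +
      (∑ ρ, avp Q (fun i j => (F (c ρ) (τ * swap i j) : ℝ))) / Fintype.card I) / 2 +
      (#P : ℝ)⁻¹ + (#Q : ℝ)⁻¹ =
      (∑ ρ, ((avp P (fun i j => (F (c ρ) (τ * swap i j) : ℝ)) +
        avp Q (fun i j => (F (c ρ) (τ * swap i j) : ℝ))) / 2 + (#P : ℝ)⁻¹ + (#Q : ℝ)⁻¹)) /
        Fintype.card I := by
    simp only [Finset.sum_add_distrib, ← Finset.sum_div, Finset.sum_const, Finset.card_univ,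
      nsmul_eq_mul]
    field_simp
  rw [e3]
  apply div_le_div_of_nonneg_right _ hN.le
  exact Finset.sum_le_sum fun ρ _ => step_F (hc ρ) hτ hPQ hP hQ hP2 hQ2

end avg

section sides
variable {L R : Type*} [Fintype L] [DecidableEq L] [Fintype R] [DecidableEq R]

/-- The side preserving permutation given by a pair. -/
def hh (ρ : Perm L × Perm R) : Perm (L ⊕ R) := Equiv.sumCongr ρ.1 ρ.2

lemma hh_mul (ρ κ : Perm L × Perm R) : hh (ρ * κ) = hh ρ * hh κ := by
  ext v
  cases v <;> simp [hh]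

/-- The average over side preserving permutations. -/
noncomputable def A (c : (L ⊕ R → Bool) → ℕ) (τ : Perm (L ⊕ R)) : ℝ :=
  Av (fun ρ : Perm L × Perm R => cc c (hh ρ)) τ

lemma A_conj (c : (L ⊕ R → Bool) → ℕ) (κ : Perm L × Perm R) (τ : Perm (L ⊕ R)) :
    A c (hh κ * τ * (hh κ)⁻¹) = A c τ := by
  unfold A Av
  congr 1
  have : ∀ ρ : Perm L × Perm R, (F (cc c (hh ρ)) (hh κ * τ * (hh κ)⁻¹) : ℝ) =
      F (cc c (hh (ρ * κ))) τ := by
    intro ρ
    rw [F_conj, ← cc_cc, hh_mul]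
  simp_rw [this]
  exact Equiv.sum_comp (Equiv.mulRight κ) (fun ρ => (F (cc c (hh ρ)) τ : ℝ))

/-- Free vertices on the left. -/
def PL (τ : Perm (L ⊕ R)) : Finset (L ⊕ R) := univ.filter fun v => v.isLeft = true ∧ τ v = v
/-- Free vertices on the right. -/
def PR (τ : Perm (L ⊕ R)) : Finset (L ⊕ R) := univ.filter fun v => v.isRight = true ∧ τ v = v
/-- Left ends of mixed pairs. -/
def CL (τ : Perm (L ⊕ R)) : Finset (L ⊕ R) :=
  univ.filter fun v => v.isLeft = true ∧ (τ v).isRight = true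

lemma mem_PL {τ : Perm (L ⊕ R)} {v : L ⊕ R} : v ∈ PL τ ↔ v.isLeft = true ∧ τ v = v := by
  simp [PL]
lemma mem_PR {τ : Perm (L ⊕ R)} {v : L ⊕ R} : v ∈ PR τ ↔ v.isRight = true ∧ τ v = v := by
  simp [PR]
lemma mem_CL {τ : Perm (L ⊕ R)} {v : L ⊕ R} :
    v ∈ CL τ ↔ v.isLeft = true ∧ (τ v).isRight = true := by
  simp [CL]

lemma not_lr {v : L ⊕ R} (h : v.isLeft = true) (h' : v.isRight = true) : False := by
  cases v <;> simp at h h'

lemma mul_swap_apply {V : Type*} [DecidableEq V] {τ : Perm V} {i j : V} (hi : τ i = i)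
    (hj : τ j = j) (v : V) :
    (τ * swap i j) v = if v = i then j else if v = j then i else τ v := by
  rw [Perm.mul_apply]
  by_cases h1 : v = i
  · subst h1; rw [swap_apply_left, hj, if_pos rfl]
  · rw [if_neg h1]
    by_cases h2 : v = j
    · subst h2; rw [swap_apply_right, hi, if_pos rfl]
    · rw [if_neg h2, swap_apply_of_ne_of_ne h1 h2]

lemma A_LR (c : (L ⊕ R → Bool) → ℕ) {τ : Perm (L ⊕ R)} {i i' j j' : L ⊕ R} (hi : i ∈ PL τ)
    (hi' : i' ∈ PL τ) (hj : j ∈ PR τ) (hj' : j' ∈ PR τ) :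
    A c (τ * swap i j) = A c (τ * swap i' j') := by
  rw [mem_PL] at hi hi'
  rw [mem_PR] at hj hj'
  obtain ⟨a, rfl⟩ := Sum.isLeft_iff.1 hi.1
  obtain ⟨a', rfl⟩ := Sum.isLeft_iff.1 hi'.1
  obtain ⟨b, rfl⟩ := Sum.isRight_iff.1 hj.1
  obtain ⟨b', rfl⟩ := Sum.isRight_iff.1 hj'.1
  set κ : Perm L × Perm R := (swap a a', swap b b') with hκ
  have hfix : ∀ v, τ v ≠ v → hh κ v = v := by
    intro v hv
    cases v with
    | inl x =>
      have h1 : x ≠ a := by rintro rfl; exact hv hi.2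
      have h2 : x ≠ a' := by rintro rfl; exact hv hi'.2
      simp [hh, hκ, swap_apply_of_ne_of_ne h1 h2]
    | inr x =>
      have h1 : x ≠ b := by rintro rfl; exact hv hj.2
      have h2 : x ≠ b' := by rintro rfl; exact hv hj'.2
      simp [hh, hκ, swap_apply_of_ne_of_ne h1 h2]
  have hmove : ∀ v, τ v = v → τ (hh κ v) = hh κ v := by
    intro v hv
    by_contra hne
    have h1 := hfix _ hne
    have h2 : hh κ v = v := (hh κ).injective h1
    rw [h2] at hne
    exact hne hv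
  have hcomm : hh κ * τ = τ * hh κ := by
    ext1 v
    rw [Perm.mul_apply, Perm.mul_apply]
    by_cases hv : τ v = v
    · rw [hv, hmove v hv]
    · rw [hfix v hv]
      have : τ (τ v) ≠ τ v := fun h => hv (τ.injective h)
      rw [hfix _ this]
  rw [← A_conj c κ (τ * swap (Sum.inl a) (Sum.inr b))]
  congr 1
  rw [← mul_assoc (hh κ), hcomm, mul_assoc, mul_assoc, ← mul_assoc (hh κ),
    ← Equiv.swap_apply_apply]
  congr 1
  simp [hh, hκ]

lemma A_step {c : (L ⊕ R → Bool) → ℕ} (hc : FlipLip c) {τ : Perm (L ⊕ R)} (hτ : Inv τ)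
    {i j : L ⊕ R} (hi : i ∈ PL τ) (hj : j ∈ PR τ) (h1 : 2 ≤ #(PL τ)) (h2 : 2 ≤ #(PR τ)) :
    A c (τ * swap i j) ≤ (avp (PL τ) (fun i j => A c (τ * swap i j)) +
        avp (PR τ) (fun i j => A c (τ * swap i j))) / 2 + (#(PL τ) : ℝ)⁻¹ + (#(PR τ) : ℝ)⁻¹ := by
  have hdisj : Disjoint (PL τ) (PR τ) := by
    rw [Finset.disjoint_left]
    intro v hv hv'
    exact not_lr (mem_PL.1 hv).1 (mem_PR.1 hv').1
  have h := Av_step (c := fun ρ : Perm L × Perm R => cc c (hh ρ))
    (fun ρ => cc_flipLip hc (hh ρ)) hτ hdisj (fun v hv => (mem_PL.1 hv).2)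
    (fun v hv => (mem_PR.1 hv).2) h1 h2
  refine le_trans (le_of_eq ?_) h
  have e : ∀ v ∈ PL τ, ∀ w ∈ PR τ,
      Av (fun ρ : Perm L × Perm R => cc c (hh ρ)) (τ * swap v w) = A c (τ * swap i j) :=
    fun v hv w hw => A_LR c hv hi hw hj
  rw [Finset.sum_congr rfl fun v hv => Finset.sum_congr rfl fun w hw => e v hv w hw]
  simp only [Finset.sum_const, nsmul_eq_mul]
  have hp : (2 : ℝ) ≤ #(PL τ) := by exact_mod_cast h1
  have hq : (2 : ℝ) ≤ #(PR τ) := by exact_mod_cast h2
  field_simp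

/-- The effect of a mixed pair on the counts. -/
lemma counts_LR {τ : Perm (L ⊕ R)} {i j : L ⊕ R} (hi : i ∈ PL τ) (hj : j ∈ PR τ) :
    #(PL τ) = #(PL (τ * swap i j)) + 1 ∧ #(PR τ) = #(PR (τ * swap i j)) + 1 ∧
      #(CL (τ * swap i j)) = #(CL τ) + 1 := by
  have hi' := mem_PL.1 hi
  have hj' := mem_PR.1 hj
  have hij : i ≠ j := by rintro rfl; exact not_lr hi'.1 hj'.1
  have happ := mul_swap_apply hi'.2 hj'.2
  refine ⟨?_, ?_, ?_⟩
  · have : PL (τ * swap i j) = (PL τ).erase i := by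
      ext v
      rw [mem_PL, Finset.mem_erase, mem_PL, happ]
      by_cases h1 : v = i
      · subst h1
        simp [hij.symm]
      · by_cases h2 : v = j
        · subst h2
          simp only [if_neg h1, if_true]
          constructor
          · rintro ⟨h3, h4⟩
            exact absurd h4.symm h1
          · rintro ⟨-, h3, -⟩
            exact (not_lr h3 hj'.1).elim
        · simp [h1, h2]
    rw [this, Finset.card_erase_add_one hi]
  · have : PR (τ * swap i j) = (PR τ).erase j := by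
      ext v
      rw [mem_PR, Finset.mem_erase, mem_PR, happ]
      by_cases h1 : v = i
      · subst h1
        simp only [if_true]
        constructor
        · rintro ⟨h3, h4⟩
          exact absurd h4.symm hij
        · rintro ⟨-, h3, -⟩
          exact (not_lr hi'.1 h3).elim
      · by_cases h2 : v = j
        · subst h2
          simp [h1, hij]
        · simp [h1, h2]
    rw [this, Finset.card_erase_add_one hj]
  · have : CL (τ * swap i j) = insert i (CL τ) := by
      ext v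
      rw [mem_CL, Finset.mem_insert, mem_CL, happ]
      by_cases h1 : v = i
      · subst h1
        simp [hi'.1, hj'.1]
      · by_cases h2 : v = j
        · subst h2
          simp only [if_neg h1, if_true, h1, false_or]
          constructor
          · rintro ⟨h3, -⟩
            exact (not_lr h3 hj'.1).elim
          · rintro ⟨h3, -⟩
            exact (not_lr h3 hj'.1).elim
        · simp [h1, h2]
    rw [this, Finset.card_insert_of_notMem]
    rw [mem_CL, hi'.2]
    rintro ⟨h3, h4⟩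
    exact not_lr h3 h4

/-- The effect of a left pair on the counts. -/
lemma counts_LL {τ : Perm (L ⊕ R)} {i j : L ⊕ R} (hi : i ∈ PL τ) (hj : j ∈ PL τ) (hij : i ≠ j) :
    #(PL τ) = #(PL (τ * swap i j)) + 2 ∧ #(PR (τ * swap i j)) = #(PR τ) ∧
      #(CL (τ * swap i j)) = #(CL τ) := by
  have hi' := mem_PL.1 hi
  have hj' := mem_PL.1 hj
  have happ := mul_swap_apply hi'.2 hj'.2
  refine ⟨?_, ?_, ?_⟩
  · have : PL (τ * swap i j) = ((PL τ).erase i).erase j := by
      ext v
      rw [mem_PL, Finset.mem_erase, Finset.mem_erase, mem_PL, happ]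
      by_cases h1 : v = i
      · subst h1
        simp [hij.symm]
      · by_cases h2 : v = j
        · subst h2
          simp [h1, hij]
        · simp [h1, h2]
    rw [this]
    have h1 : j ∈ (PL τ).erase i := Finset.mem_erase.2 ⟨hij.symm, hj⟩
    have h2 := Finset.card_erase_add_one h1
    have h3 := Finset.card_erase_add_one hi
    omega
  · congr 1
    ext v
    rw [mem_PR, mem_PR, happ]
    by_cases h1 : v = i
    · subst h1
      constructor <;> rintro ⟨h3, -⟩ <;> exact (not_lr hi'.1 h3).elim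
    · by_cases h2 : v = j
      · subst h2
        constructor <;> rintro ⟨h3, -⟩ <;> exact (not_lr hj'.1 h3).elim
      · simp [h1, h2]
  · congr 1
    ext v
    rw [mem_CL, mem_CL, happ]
    by_cases h1 : v = i
    · subst h1
      simp only [if_true]
      constructor
      · rintro ⟨-, h3⟩
        exact (not_lr hj'.1 h3).elim
      · rintro ⟨-, h3⟩
        rw [hi'.2] at h3
        exact (not_lr hi'.1 h3).elim
    · by_cases h2 : v = j
      · subst h2
        simp only [if_neg h1, if_true]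
        constructor
        · rintro ⟨-, h3⟩
          exact (not_lr hi'.1 h3).elim
        · rintro ⟨-, h3⟩
          rw [hj'.2] at h3
          exact (not_lr hj'.1 h3).elim
      · simp [h1, h2]

/-- The effect of a right pair on the counts. -/
lemma counts_RR {τ : Perm (L ⊕ R)} {i j : L ⊕ R} (hi : i ∈ PR τ) (hj : j ∈ PR τ) (hij : i ≠ j) :
    #(PR τ) = #(PR (τ * swap i j)) + 2 ∧ #(PL (τ * swap i j)) = #(PL τ) ∧
      #(CL (τ * swap i j)) = #(CL τ) := by
  have hi' := mem_PR.1 hi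
  have hj' := mem_PR.1 hj
  have happ := mul_swap_apply hi'.2 hj'.2
  refine ⟨?_, ?_, ?_⟩
  · have : PR (τ * swap i j) = ((PR τ).erase i).erase j := by
      ext v
      rw [mem_PR, Finset.mem_erase, Finset.mem_erase, mem_PR, happ]
      by_cases h1 : v = i
      · subst h1
        simp [hij.symm]
      · by_cases h2 : v = j
        · subst h2
          simp [h1, hij]
        · simp [h1, h2]
    rw [this]
    have h1 : j ∈ (PR τ).erase i := Finset.mem_erase.2 ⟨hij.symm, hj⟩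
    have h2 := Finset.card_erase_add_one h1
    have h3 := Finset.card_erase_add_one hi
    omega
  · congr 1
    ext v
    rw [mem_PL, mem_PL, happ]
    by_cases h1 : v = i
    · subst h1
      constructor <;> rintro ⟨h3, -⟩ <;> exact (not_lr h3 hi'.1).elim
    · by_cases h2 : v = j
      · subst h2
        constructor <;> rintro ⟨h3, -⟩ <;> exact (not_lr h3 hj'.1).elim
      · simp [h1, h2]
  · congr 1
    ext v
    rw [mem_CL, mem_CL, happ]
    by_cases h1 : v = i
    · subst h1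
      constructor <;> rintro ⟨h3, -⟩ <;> exact (not_lr h3 hi'.1).elim
    · by_cases h2 : v = j
      · subst h2
        constructor <;> rintro ⟨h3, -⟩ <;> exact (not_lr h3 hj'.1).elim
      · simp [h1, h2]

/-- Removing a mixed pair. -/
lemma exists_remove {τ : Perm (L ⊕ R)} (hτ : Inv τ) (hC : #(CL τ) ≠ 0) :
    ∃ (τ' : Perm (L ⊕ R)) (i j : L ⊕ R), Inv τ' ∧ i ∈ PL τ' ∧ j ∈ PR τ' ∧ τ = τ' * swap i j := by
  obtain ⟨i, hi⟩ := Finset.card_ne_zero.1 hC
  rw [mem_CL] at hi
  set j := τ i with hj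
  have hτj : τ j = i := by rw [hj, hτ]
  have hij : i ≠ j := by intro h; exact not_lr hi.1 (h ▸ hi.2)
  have happ : ∀ v, (τ * swap i j) v = if v = i then i else if v = j then j else τ v := by
    intro v
    rw [Perm.mul_apply]
    by_cases h1 : v = i
    · subst h1; rw [swap_apply_left, hτj, if_pos rfl]
    · rw [if_neg h1]
      by_cases h2 : v = j
      · rw [h2, swap_apply_right, if_pos rfl]
      · rw [if_neg h2, swap_apply_of_ne_of_ne h1 h2]
  refine ⟨τ * swap i j, i, j, ?_, ?_, ?_, ?_⟩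
  · intro v
    rw [happ v]
    by_cases h1 : v = i
    · rw [if_pos h1, happ, if_pos rfl, h1]
    · rw [if_neg h1]
      by_cases h2 : v = j
      · rw [if_pos h2, happ, if_neg hij.symm, if_pos rfl, h2]
      · rw [if_neg h2, happ]
        have h3 : τ v ≠ i := fun h => h2 (by rw [← hτ v, h])
        have h4 : τ v ≠ j := fun h => h1 (τ.injective h)
        rw [if_neg h3, if_neg h4, hτ]
  · rw [mem_PL, happ, if_pos rfl]
    exact ⟨hi.1, rfl⟩
  · rw [mem_PR, happ, if_neg hij.symm, if_pos rfl]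
    exact ⟨hi.2, rfl⟩
  · rw [mul_assoc, swap_mul_self, mul_one]

variable {c : (L ⊕ R → Bool) → ℕ} {T₀ : ℝ}

/-- The trivial bound. -/
lemma triv_bound (hc : FlipLip c) (hT : ∀ τ : Perm (L ⊕ R), Inv τ → #(CL τ) = 0 → A c τ ≤ T₀) :
    ∀ (k : ℕ) (τ : Perm (L ⊕ R)), Inv τ → #(CL τ) = k → A c τ ≤ T₀ + 2 * k := by
  intro k
  induction k with
  | zero =>
    intro τ hτ hk
    simpa using hT τ hτ hk
  | succ k ih =>
    intro τ hτ hk
    obtain ⟨τ', i, j, hτ', hi, hj, rfl⟩ := exists_remove hτ (by omega)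
    have hcnt := counts_LR hi hj
    have hij : i ≠ j := by rintro rfl; exact not_lr (mem_PL.1 hi).1 (mem_PR.1 hj).1
    have h1 : A c (τ' * swap i j) ≤ A c τ' + 2 :=
      Av_add_two (fun ρ => cc_flipLip hc (hh ρ)) hτ' (mem_PL.1 hi).2 (mem_PR.1 hj).2 hij
    have h2 := ih τ' hτ' (by omega)
    push_cast
    linarith

/-- The potential bound. -/
lemma pot_bound (hc : FlipLip c) (hT : ∀ τ : Perm (L ⊕ R), Inv τ → #(CL τ) = 0 → A c τ ≤ T₀)
    {r : ℕ} (hr : 0 < r) {K : ℕ} {θ : ℝ} (hθ : 2 * K ≤ θ * (r / 2) ^ 2) :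
    ∀ (k : ℕ) (τ : Perm (L ⊕ R)), k ≤ K → Inv τ → #(CL τ) = k → #(PL τ) + #(PR τ) = 2 * r →
      A c τ ≤ T₀ + θ * (((#(PL τ) : ℝ) - r) ^ 2 + k) + k * (4 / r) := by
  have hrR : (0 : ℝ) < r := by exact_mod_cast hr
  have hθ0 : 0 ≤ θ := by
    by_contra h
    have : θ * ((r : ℝ) / 2) ^ 2 < 0 := mul_neg_of_neg_of_pos (not_le.1 h) (by positivity)
    have : (0 : ℝ) ≤ 2 * K := by positivity
    linarith
  intro k
  induction k with
  | zero =>
    intro τ _ hτ hk _
    have := hT τ hτ hk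
    have h2 : 0 ≤ θ * (((#(PL τ) : ℝ) - r) ^ 2 + ((0 : ℕ) : ℝ)) := by positivity
    simp only [Nat.cast_zero, zero_mul, add_zero] at h2 ⊢
    linarith
  | succ k ih =>
    intro τ hkK hτ hk hsum
    by_cases hbd : (r : ℝ) / 2 ≤ |(#(PL τ) : ℝ) - r|
    · have h1 := triv_bound hc hT (k + 1) τ hτ hk
      have h2 : ((r : ℝ) / 2) ^ 2 ≤ ((#(PL τ) : ℝ) - r) ^ 2 := by
        rw [← sq_abs ((#(PL τ) : ℝ) - r)]
        exact pow_le_pow_left₀ (by positivity) hbd 2
      have h3 : θ * ((r : ℝ) / 2) ^ 2 ≤ θ * ((#(PL τ) : ℝ) - r) ^ 2 :=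
        mul_le_mul_of_nonneg_left h2 hθ0
      have h4 : ((k + 1 : ℕ) : ℝ) ≤ K := by exact_mod_cast hkK
      have h5 : 0 ≤ θ * ((k + 1 : ℕ) : ℝ) := by positivity
      have h6 : 0 ≤ ((k + 1 : ℕ) : ℝ) * (4 / r) := by positivity
      have h7 : θ * (((#(PL τ) : ℝ) - r) ^ 2 + ((k + 1 : ℕ) : ℝ)) =
          θ * ((#(PL τ) : ℝ) - r) ^ 2 + θ * ((k + 1 : ℕ) : ℝ) := by ring
      rw [h7]
      linarith
    · push Not at hbd
      rw [abs_lt] at hbd
      obtain ⟨τ', i, j, hτ', hi, hj, rfl⟩ := exists_remove hτ (by omega)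
      obtain ⟨c1, c2, c3⟩ := counts_LR hi hj
      set u := #(PL (τ' * swap i j)) with hu
      set w := #(PR (τ' * swap i j)) with hw
      have huw : (u : ℝ) + w = 2 * r := by exact_mod_cast hsum
      have hu0 : (r : ℝ) / 2 < u := by linarith [hbd.1]
      have hw0 : (r : ℝ) / 2 < w := by linarith [hbd.2]
      have hu1 : 1 ≤ u := by
        rcases Nat.eq_zero_or_pos u with h | h
        · rw [h] at hu0; push_cast at hu0; linarith
        · exact h
      have hw1 : 1 ≤ w := by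
        rcases Nat.eq_zero_or_pos w with h | h
        · rw [h] at hw0; push_cast at hw0; linarith
        · exact h
      have hstep := A_step hc hτ' hi hj (by omega) (by omega)
      have hk' : #(CL τ') = k := by omega
      -- left pairs
      have hL : avp (PL τ') (fun i j => A c (τ' * swap i j)) ≤
          T₀ + θ * (((u : ℝ) - 1 - r) ^ 2 + k) + k * (4 / r) := by
        refine avp_le (by omega) fun a ha b hb hab => ?_
        obtain ⟨d1, d2, d3⟩ := counts_LL ha hb hab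
        have hinv := hτ'.mul_swap (mem_PL.1 ha).2 (mem_PL.1 hb).2
        have h := ih (τ' * swap a b) (by omega) hinv (by omega) (by omega)
        have e : (#(PL (τ' * swap a b)) : ℝ) = u - 1 := by
          have : #(PL (τ' * swap a b)) + 1 = u := by omega
          rw [← this]; push_cast; ring
        rw [e] at h
        exact h
      have hR : avp (PR τ') (fun i j => A c (τ' * swap i j)) ≤
          T₀ + θ * (((u : ℝ) + 1 - r) ^ 2 + k) + k * (4 / r) := by
        refine avp_le (by omega) fun a ha b hb hab => ?_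
        obtain ⟨d1, d2, d3⟩ := counts_RR ha hb hab
        have hinv := hτ'.mul_swap (mem_PR.1 ha).2 (mem_PR.1 hb).2
        have h := ih (τ' * swap a b) (by omega) hinv (by omega) (by omega)
        have e : (#(PL (τ' * swap a b)) : ℝ) = u + 1 := by
          have : #(PL (τ' * swap a b)) = u + 1 := by omega
          rw [this]; push_cast; ring
        rw [e] at h
        exact h
      have hi1 : (#(PL τ') : ℝ)⁻¹ ≤ 2 / r := by
        rw [c1, inv_le_comm₀ (by positivity) (by positivity), inv_div]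
        push_cast
        linarith
      have hi2 : (#(PR τ') : ℝ)⁻¹ ≤ 2 / r := by
        rw [c2, inv_le_comm₀ (by positivity) (by positivity), inv_div]
        push_cast
        linarith
      have e4 : (4 : ℝ) / r = 2 / r + 2 / r := by ring
      push_cast
      nlinarith

/-- Removing several mixed pairs. -/
lemma remove_many (hc : FlipLip c) : ∀ (k : ℕ) (τ : Perm (L ⊕ R)), Inv τ → k ≤ #(CL τ) →
    ∃ τ' : Perm (L ⊕ R), Inv τ' ∧ #(CL τ') + k = #(CL τ) ∧ #(PL τ') = #(PL τ) + k ∧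
      #(PR τ') = #(PR τ) + k ∧ A c τ ≤ A c τ' + 2 * k := by
  intro k
  induction k with
  | zero =>
    intro τ hτ _
    exact ⟨τ, hτ, by simp, by simp, by simp, by simp⟩
  | succ k ih =>
    intro τ hτ hk
    obtain ⟨τ', i, j, hτ', hi, hj, rfl⟩ := exists_remove hτ (by omega)
    obtain ⟨c1, c2, c3⟩ := counts_LR hi hj
    have hij : i ≠ j := by rintro rfl; exact not_lr (mem_PL.1 hi).1 (mem_PR.1 hj).1
    have h1 : A c (τ' * swap i j) ≤ A c τ' + 2 :=
      Av_add_two (fun ρ => cc_flipLip hc (hh ρ)) hτ' (mem_PL.1 hi).2 (mem_PR.1 hj).2 hij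
    obtain ⟨τ'', g1, g2, g3, g4, g5⟩ := ih τ' hτ' (by omega)
    refine ⟨τ'', g1, by omega, by omega, by omega, ?_⟩
    push_cast
    linarith

/-- The final comparison for perfect matchings. -/
lemma main_bound (hc : FlipLip c) (hT : ∀ τ : Perm (L ⊕ R), Inv τ → #(CL τ) = 0 → A c τ ≤ T₀)
    {τ : Perm (L ⊕ R)} (hτ : Inv τ) (hL : #(PL τ) = 0) (hR : #(PR τ) = 0) :
    A c τ ≤ T₀ + 16 * (#(CL τ) : ℝ) ^ (3 / 4 : ℝ) := by
  set k := #(CL τ) with hk
  rcases Nat.eq_zero_or_pos k with h0 | h0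
  · have := hT τ hτ (by omega)
    rw [h0]
    rw [Nat.cast_zero, Real.zero_rpow (by norm_num), mul_zero, add_zero]
    exact this
  have hkR : (1 : ℝ) ≤ k := by exact_mod_cast h0
  set y : ℝ := (k : ℝ) ^ (3 / 4 : ℝ) with hy
  have hy1 : 1 ≤ y := Real.one_le_rpow hkR (by norm_num)
  have hyk : y ≤ k := by
    calc y ≤ (k : ℝ) ^ (1 : ℝ) := Real.rpow_le_rpow_of_exponent_le hkR (by norm_num)
      _ = k := Real.rpow_one _
  set r := ⌈y⌉₊ with hr
  have hr1 : y ≤ r := Nat.le_ceil y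
  have hr2 : (r : ℝ) < y + 1 := Nat.ceil_lt_add_one (by linarith)
  have hrk : r ≤ k := Nat.ceil_le.2 hyk
  have hr0 : 0 < r := by
    have : (0 : ℝ) < r := by linarith
    exact_mod_cast this
  have hrR : (0 : ℝ) < r := by exact_mod_cast hr0
  obtain ⟨τ', g1, g2, g3, g4, g5⟩ := remove_many hc r τ hτ (by omega)
  have hpot := pot_bound hc hT hr0 (K := k) (θ := 8 * k / r ^ 2)
    (by rw [show (8 * (k : ℝ) / r ^ 2) * (r / 2) ^ 2 = 2 * k by field_simp; ring])
    (#(CL τ')) τ' (by omega) g1 rfl (by omega)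
  have e1 : (#(PL τ') : ℝ) = r := by
    have : #(PL τ') = r := by omega
    rw [this]
  rw [e1, sub_self] at hpot
  have hk' : (#(CL τ') : ℝ) ≤ k := by exact_mod_cast (by omega : #(CL τ') ≤ k)
  -- y ^ 2 = k ^ (3/2), y * y ≥ ...
  have hy2 : y ^ 2 = (k : ℝ) * (k : ℝ) ^ (1 / 2 : ℝ) := by
    rw [hy, ← Real.rpow_natCast, ← Real.rpow_mul (by positivity)]
    nth_rw 2 [← Real.rpow_one (k : ℝ)]
    rw [← Real.rpow_add (by positivity)]
    norm_num
  have hs1 : (1 : ℝ) ≤ (k : ℝ) ^ (1 / 2 : ℝ) := Real.one_le_rpow hkR (by norm_num)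
  have hs2 : (k : ℝ) ^ (1 / 2 : ℝ) ≤ y :=
    Real.rpow_le_rpow_of_exponent_le hkR (by norm_num)
  have hs3 : (k : ℝ) ^ (1 / 2 : ℝ) * (k : ℝ) ^ (1 / 2 : ℝ) = k := by
    rw [← Real.rpow_add (by positivity)]
    norm_num
  set s := (k : ℝ) ^ (1 / 2 : ℝ) with hs
  have t1 : 8 * (k : ℝ) / r ^ 2 * (0 ^ 2 + (#(CL τ') : ℝ)) ≤ 8 * y := by
    have : 8 * (k : ℝ) / r ^ 2 * (0 ^ 2 + (#(CL τ') : ℝ)) ≤ 8 * (k : ℝ) / r ^ 2 * k := by
      apply mul_le_mul_of_nonneg_left _ (by positivity)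
      simpa using hk'
    refine le_trans this ?_
    rw [div_mul_eq_mul_div, div_le_iff₀ (by positivity)]
    have h2 : y ^ 2 ≤ (r : ℝ) ^ 2 := pow_le_pow_left₀ (by linarith) hr1 2
    have h3 : 8 * y * y ^ 2 ≤ 8 * y * (r : ℝ) ^ 2 :=
      mul_le_mul_of_nonneg_left h2 (by positivity)
    refine le_trans ?_ h3
    rw [hy2]
    -- 8 k k ≤ 8 y k s
    have : (k : ℝ) * k ≤ y * (k * s) := by
      calc (k : ℝ) * k = k * (s * s) := by rw [hs3]
        _ = s * (k * s) := by ring
        _ ≤ y * (k * s) := mul_le_mul_of_nonneg_right hs2 (by positivity)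
    nlinarith
  have t2 : (#(CL τ') : ℝ) * (4 / r) ≤ 4 * y := by
    calc (#(CL τ') : ℝ) * (4 / r) ≤ k * (4 / y) := by
          apply mul_le_mul hk' _ (by positivity) (by positivity)
          exact div_le_div_of_nonneg_left (by norm_num) (by linarith) hr1
      _ = 4 * (k / y) := by ring
      _ ≤ 4 * y := by
          apply mul_le_mul_of_nonneg_left _ (by norm_num)
          rw [div_le_iff₀ (by linarith), ← sq, hy2]
          nlinarith
  have t3 : 2 * (r : ℝ) ≤ 4 * y := by linarith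
  linarith

end sides

end Pool.Agent.Q298.Neck
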