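import Mathlib
import Pool.Agent.Q298.Neck.Basic
import Pool.Agent.Q298.Neck.Pot

open Equiv Finset

namespace Pool.Agent.Q298.Neck

/-- The mean over a finite type. -/
noncomputable def mean {I : Type*} [Fintype I] (f : I → ℝ) : ℝ := (∑ i, f i) / Fintype.card I

lemma sum_sub_mean {I : Type*} [Fintype I] [Nonempty I] (f : I → ℝ) : ∑ i, (f i - mean f) = 0 := by
  have hN : (0 : ℝ) < Fintype.card I := by exact_mod_cast Fintype.card_pos
  rw [Finset.sum_sub_distrib]
  simp only [Finset.sum_const, Finset.card_univ, nsmul_eq_mul]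
  unfold mean
  field_simp
  ring

lemma sum_sq_sub {I : Type*} [Fintype I] [Nonempty I] (f : I → ℝ) (a : ℝ) :
    ∑ i, (f i - a) ^ 2 = ∑ i, (f i - mean f) ^ 2 + Fintype.card I * (mean f - a) ^ 2 := by
  have h : ∀ i, (f i - a) ^ 2 = (f i - mean f) ^ 2 + 2 * (mean f - a) * (f i - mean f) +
      (mean f - a) ^ 2 := fun i => by ring
  simp_rw [h]
  rw [Finset.sum_add_distrib, Finset.sum_add_distrib, ← Finset.mul_sum, sum_sub_mean]
  simp

lemma abs_mean_sub_le {I : Type*} [Fintype I] [Nonempty I] {f g : I → ℝ} {K : ℝ}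
    (h : ∀ i, |f i - g i| ≤ K) : |mean f - mean g| ≤ K := by
  have hN : (0 : ℝ) < Fintype.card I := by exact_mod_cast Fintype.card_pos
  unfold mean
  rw [← sub_div, abs_div, abs_of_pos hN, div_le_iff₀ hN, ← Finset.sum_sub_distrib]
  refine le_trans (Finset.abs_sum_le_sum_abs _ _) ?_
  calc ∑ i, |f i - g i| ≤ ∑ _i : I, K := Finset.sum_le_sum fun i _ => h i
    _ = K * Fintype.card I := by simp; ring

lemma mean_const {I : Type*} [Fintype I] [Nonempty I] (a : ℝ) : mean (fun _ : I => a) = a := by
  have hN : (0 : ℝ) < Fintype.card I := by exact_mod_cast Fintype.card_pos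
  unfold mean
  simp

lemma decomp_eq {n : ℕ} (p : Fin (n + 1)) (e : Perm (Fin n)) :
    Perm.decomposeFin.symm (p, e) = swap 0 p * Perm.decomposeFin.symm (0, e) := by
  ext1 x
  refine Fin.cases ?_ (fun x => ?_) x
  · rw [Perm.mul_apply, Perm.decomposeFin_symm_apply_zero, Perm.decomposeFin_symm_apply_zero,
      swap_apply_left]
  · rw [Perm.mul_apply, Perm.decomposeFin_symm_apply_succ, Perm.decomposeFin_symm_apply_succ]
    simp

lemma decomp_mul_swap {n : ℕ} (p : Fin (n + 1)) (e : Perm (Fin n)) (i j : Fin n) :
    Perm.decomposeFin.symm (p, e * swap i j) =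
      Perm.decomposeFin.symm (p, e) * swap i.succ j.succ := by
  ext1 x
  refine Fin.cases ?_ (fun x => ?_) x
  · rw [Perm.mul_apply, swap_apply_of_ne_of_ne (Fin.succ_ne_zero _).symm
      (Fin.succ_ne_zero _).symm, Perm.decomposeFin_symm_apply_zero,
      Perm.decomposeFin_symm_apply_zero]
  · rw [Perm.mul_apply]
    have : swap i.succ j.succ x.succ = (swap i j x).succ := by
      by_cases h1 : x = i
      · subst h1; rw [swap_apply_left, swap_apply_left]
      by_cases h2 : x = j
      · subst h2; rw [swap_apply_right, swap_apply_right]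
      · rw [swap_apply_of_ne_of_ne h1 h2, swap_apply_of_ne_of_ne]
        · exact fun h => h1 (Fin.succ_injective _ h)
        · exact fun h => h2 (Fin.succ_injective _ h)
    rw [this, Perm.decomposeFin_symm_apply_succ, Perm.decomposeFin_symm_apply_succ,
      Perm.mul_apply]

/-- The variance of a function which is Lipschitz under transpositions. -/
lemma var_perm {K : ℝ} (hK : 0 ≤ K) : ∀ (n : ℕ) (f : Perm (Fin n) → ℝ),
    (∀ π i j, |f (π * swap i j) - f π| ≤ K) →
    ∑ π, (f π - mean f) ^ 2 ≤ 4 * K ^ 2 * n * Fintype.card (Perm (Fin n)) := by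
  intro n
  induction n with
  | zero =>
    intro f _
    have : ∀ π : Perm (Fin 0), f π - mean f = 0 := by
      intro π
      have hf : f = fun _ => f π := by
        funext κ
        rw [Subsingleton.elim κ π]
      have : mean f = f π := by
        conv_lhs => rw [hf]
        exact mean_const _
      rw [this, sub_self]
    simp [this]
  | succ n ih =>
    intro f hf
    set g : Fin (n + 1) → Perm (Fin n) → ℝ := fun p e => f (Perm.decomposeFin.symm (p, e)) with hg
    have hsum : ∀ a : ℝ, ∑ π, (f π - a) ^ 2 = ∑ p, ∑ e, (g p e - a) ^ 2 := by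
      intro a
      rw [← Fintype.sum_prod_type']
      exact (Equiv.sum_comp Perm.decomposeFin.symm (fun π => (f π - a) ^ 2)).symm
    have hcard : (Fintype.card (Perm (Fin (n + 1))) : ℝ) = (n + 1) * Fintype.card (Perm (Fin n)) := by
      rw [Fintype.card_perm, Fintype.card_perm, Fintype.card_fin, Fintype.card_fin,
        Nat.factorial_succ]
      push_cast
      ring
    set m : Fin (n + 1) → ℝ := fun p => mean (g p) with hm
    have hN : (0 : ℝ) < Fintype.card (Perm (Fin n)) := by exact_mod_cast Fintype.card_pos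
    have hmean : mean f = mean m := by
      have h1 : ∑ π, f π = ∑ p, ∑ e, g p e := by
        rw [← Fintype.sum_prod_type']
        exact (Equiv.sum_comp Perm.decomposeFin.symm f).symm
      unfold mean
      rw [h1, hcard]
      simp only [hm, mean, Fintype.card_fin]
      rw [← Finset.sum_div]
      push_cast
      field_simp
    have hdiff : ∀ p e, |g p e - g 0 e| ≤ K := by
      intro p e
      simp only [hg]
      rw [decomp_eq p e]
      set τ := Perm.decomposeFin.symm ((0 : Fin (n + 1)), e) with hτ
      have : swap 0 p * τ = τ * swap (τ⁻¹ 0) (τ⁻¹ p) := by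
        rw [Equiv.swap_apply_apply]
        group
      rw [this]
      exact hf _ _ _
    have hdiff2 : ∀ p q e, |g p e - g q e| ≤ 2 * K := by
      intro p q e
      have h1 := hdiff p e
      have h2 := hdiff q e
      rw [abs_le] at *
      constructor <;> linarith
    have hmm : ∀ p, |m p - mean m| ≤ 2 * K := by
      intro p
      rw [← mean_const (I := Fin (n + 1)) (m p)]
      refine abs_mean_sub_le fun q => ?_
      exact abs_mean_sub_le fun e => hdiff2 p q e
    rw [hsum, hmean]
    have hp : ∀ p, ∑ e, (g p e - mean m) ^ 2 ≤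
        4 * K ^ 2 * n * Fintype.card (Perm (Fin n)) +
          Fintype.card (Perm (Fin n)) * (2 * K) ^ 2 := by
      intro p
      rw [sum_sq_sub (g p) (mean m)]
      refine add_le_add (ih (g p) ?_) ?_
      · intro π i j
        simp only [hg]
        rw [decomp_mul_swap]
        exact hf _ _ _
      · apply mul_le_mul_of_nonneg_left _ hN.le
        rw [← sq_abs]
        exact pow_le_pow_left₀ (abs_nonneg _) (hmm p) 2
    calc ∑ p, ∑ e, (g p e - mean m) ^ 2 ≤ ∑ _p : Fin (n + 1),
          (4 * K ^ 2 * n * Fintype.card (Perm (Fin n)) +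
          Fintype.card (Perm (Fin n)) * (2 * K) ^ 2) := Finset.sum_le_sum fun p _ => hp p
      _ = 4 * K ^ 2 * ((n + 1 : ℕ) : ℝ) * Fintype.card (Perm (Fin (n + 1))) := by
          rw [hcard]
          simp only [Finset.sum_const, Finset.card_univ, Fintype.card_fin, nsmul_eq_mul]
          push_cast
          ring

/-- Chebyshev's inequality. -/
lemma cheb {I : Type*} [Fintype I] [Nonempty I] (f : I → ℝ) {a B : ℝ} (ha : 0 < a)
    (h : ∑ i, (f i - mean f) ^ 2 ≤ B * Fintype.card I) :
    (#(univ.filter fun i => a ≤ |f i - mean f|) : ℝ) ≤ B / a ^ 2 * Fintype.card I := by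
  have h1 : (#(univ.filter fun i => a ≤ |f i - mean f|) : ℝ) * a ^ 2 ≤
      ∑ i, (f i - mean f) ^ 2 := by
    calc (#(univ.filter fun i => a ≤ |f i - mean f|) : ℝ) * a ^ 2
        = ∑ _i ∈ univ.filter fun i => a ≤ |f i - mean f|, a ^ 2 := by
          rw [Finset.sum_const, nsmul_eq_mul]
      _ ≤ ∑ i ∈ univ.filter fun i => a ≤ |f i - mean f|, (f i - mean f) ^ 2 := by
          refine Finset.sum_le_sum fun i hi => ?_
          rw [mem_filter] at hi
          rw [← sq_abs (f i - mean f)]
          exact pow_le_pow_left₀ ha.le hi.2 2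
      _ ≤ ∑ i, (f i - mean f) ^ 2 :=
          Finset.sum_le_sum_of_subset_of_nonneg (Finset.filter_subset _ _)
            (fun i _ _ => sq_nonneg _)
  rw [div_mul_eq_mul_div, le_div_iff₀ (by positivity)]
  linarith

section lip
variable {V : Type*} [Fintype V] [DecidableEq V]

lemma flip_swap {c : (V → Bool) → ℕ} (hc : FlipLip c) (σ : V → Bool) (i j : V) :
    c (fun v => σ (swap i j v)) ≤ c σ + 4 := by
  by_cases h : σ i = σ j
  · have : (fun v => σ (swap i j v)) = σ := by
      funext v
      by_cases h1 : v = i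
      · subst h1; rw [swap_apply_left, h]
      by_cases h2 : v = j
      · subst h2; rw [swap_apply_right, h]
      · rw [swap_apply_of_ne_of_ne h1 h2]
    rw [this]
    omega
  · have hij : i ≠ j := fun h' => h (by rw [h'])
    have h1 := hc σ i
    have h2 := hc (Function.update σ i (!(σ i))) j
    have e1 : Function.update (Function.update σ i (!(σ i))) j
        (!(Function.update σ i (!(σ i)) j)) = fun v => σ (swap i j v) := by
      funext v
      by_cases h3 : v = j
      · subst h3
        rw [Function.update_self, Function.update_of_ne hij.symm, swap_apply_right]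
        cases h4 : σ i <;> cases h5 : σ v <;> simp_all
      · rw [Function.update_of_ne h3]
        by_cases h4 : v = i
        · subst h4
          rw [Function.update_self, swap_apply_left]
          cases h5 : σ v <;> cases h6 : σ j <;> simp_all
        · rw [Function.update_of_ne h4, swap_apply_of_ne_of_ne h4 h3]
    rw [e1] at h2
    omega

lemma F_swap_conj_le {c : (V → Bool) → ℕ} (hc : FlipLip c) {τ : Perm V} (hτ : Inv τ) (i j : V) :
    F c (swap i j * τ * swap i j) ≤ F c τ + 4 := by
  obtain ⟨σ, h1, h2⟩ := F_spec c hτ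
  rw [← h2]
  refine le_trans (F_le c (σ := fun v => σ (swap i j v)) ?_) (flip_swap hc σ i j)
  intro v hv
  simp only [Perm.mul_apply, swap_apply_self] at hv ⊢
  refine h1 (swap i j v) (fun h => hv ?_)
  rw [h, swap_apply_self]

/-- The functional is Lipschitz under transpositions. -/
lemma F_lip {c : (V → Bool) → ℕ} (hc : FlipLip c) {τ : Perm V} (hτ : Inv τ) (π : Perm V)
    (i j : V) : |(F (cc c (π * swap i j)) τ : ℝ) - F (cc c π) τ| ≤ 4 := by
  have hinv : ∀ i j : V, (swap i j)⁻¹ = swap i j := fun i j => swap_inv i j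
  have h0 := F_conj (cc c π) (swap i j) τ
  rw [← cc_cc, hinv] at h0
  have hc' := cc_flipLip hc π
  have h1 := F_swap_conj_le hc' hτ i j
  have hτ' : Inv (swap i j * τ * swap i j) := by
    intro v
    simp only [Perm.mul_apply, swap_apply_self]
    rw [hτ, swap_apply_self]
  have h2 := F_swap_conj_le hc' hτ' i j
  have e : swap i j * (swap i j * τ * swap i j) * swap i j = τ := by
    ext1 v
    simp only [Perm.mul_apply, swap_apply_self]
  rw [e] at h2
  rw [h0] at h1 h2
  rw [abs_le]
  constructor
  · have : (F (cc c π) τ : ℝ) ≤ F (cc c (π * swap i j)) τ + 4 := by exact_mod_cast h2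
    linarith
  · have : (F (cc c (π * swap i j)) τ : ℝ) ≤ F (cc c π) τ + 4 := by exact_mod_cast h1
    linarith

end lip

end Pool.Agent.Q298.Neck
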