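import Mathlib
import Pool.Agent.Q298.Neck.Basic
import Pool.Agent.Q298.Neck.Pot

open Equiv Finset

namespace Pool.Agent.Q298.Neck

set_option linter.unusedSectionVars false

section conj
variable {V : Type*} [Fintype V] [DecidableEq V]

/-- Average over all relabellings. -/
noncomputable def M (c : (V → Bool) → ℕ) (τ : Perm V) : ℝ := Av (fun π : Perm V => cc c π) τ

lemma M_conj (c : (V → Bool) → ℕ) (κ τ : Perm V) : M c (κ * τ * κ⁻¹) = M c τ := by
  unfold M Av
  congr 1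
  have : ∀ π : Perm V, (F (cc c π) (κ * τ * κ⁻¹) : ℝ) = F (cc c (π * κ)) τ := by
    intro π
    rw [F_conj, ← cc_cc]
  simp_rw [this]
  exact Equiv.sum_comp (Equiv.mulRight κ) (fun π => (F (cc c π) τ : ℝ))

lemma cyc {τ : Perm V} (hτ : Inv τ) : ∃ k, τ.cycleType = Multiset.replicate k 2 ∧
    #τ.support = 2 * k := by
  have hpow : τ ^ 2 = 1 := by
    ext v
    simp only [sq, Perm.mul_apply, Perm.one_apply]
    exact hτ v
  have hord : orderOf τ ∣ 2 := orderOf_dvd_of_pow_eq_one hpow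
  refine ⟨Multiset.card τ.cycleType, ?_, ?_⟩
  · rw [Multiset.eq_replicate]
    refine ⟨rfl, fun n hn => ?_⟩
    have h1 := Perm.dvd_of_mem_cycleType hn
    have h2 := Perm.two_le_of_mem_cycleType hn
    have h3 : n ≤ 2 := Nat.le_of_dvd (by norm_num) (h1.trans hord)
    omega
  · rw [← Perm.sum_cycleType]
    have : ∀ n ∈ τ.cycleType, n = 2 := by
      intro n hn
      have h1 := Perm.dvd_of_mem_cycleType hn
      have h2 := Perm.two_le_of_mem_cycleType hn
      have h3 : n ≤ 2 := Nat.le_of_dvd (by norm_num) (h1.trans hord)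
      omega
    rw [Multiset.eq_replicate_of_mem this, Multiset.sum_replicate]
    simp [mul_comm]

lemma M_fpf (c : (V → Bool) → ℕ) {τ τ' : Perm V} (hτ : Inv τ) (hτ' : Inv τ')
    (h : ∀ v, τ v ≠ v) (h' : ∀ v, τ' v ≠ v) : M c τ = M c τ' := by
  obtain ⟨k, h1, h2⟩ := cyc hτ
  obtain ⟨k', h1', h2'⟩ := cyc hτ'
  have e1 : τ.support = univ := by
    ext v; simp [Perm.mem_support, h v]
  have e2 : τ'.support = univ := by
    ext v; simp [Perm.mem_support, h' v]
  rw [e1] at h2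
  rw [e2] at h2'
  have hk : k = k' := by omega
  have hc : IsConj τ τ' := by
    rw [Perm.isConj_iff_cycleType_eq, h1, h1', hk]
  obtain ⟨κ, hκ⟩ := isConj_iff.1 hc
  rw [← hκ, M_conj]

lemma M_le_fpf {c : (V → Bool) → ℕ} {τ' : Perm V} (hτ' : Inv τ') (h' : ∀ v, τ' v ≠ v) :
    ∀ (n : ℕ) (τ : Perm V), Inv τ → #(univ.filter fun v => τ v = v) = n → M c τ ≤ M c τ' := by
  intro n
  induction n using Nat.strong_induction_on with
  | _ n ih =>
    intro τ hτ hn
    rcases Nat.eq_zero_or_pos n with h0 | h0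
    · have : ∀ v, τ v ≠ v := by
        intro v hv
        rw [h0, Finset.card_eq_zero] at hn
        have : v ∈ (univ.filter fun v => τ v = v) := by simp [hv]
        rw [hn] at this
        simp at this
      exact (M_fpf c hτ hτ' this h').le
    · -- there are two fixed points
      obtain ⟨k, -, h2⟩ := cyc hτ
      obtain ⟨k', -, h2'⟩ := cyc hτ'
      have e2 : τ'.support = univ := by
        ext v; simp [Perm.mem_support, h' v]
      rw [e2] at h2'
      have e1 : #(univ.filter fun v => τ v = v) + #τ.support = #(univ : Finset V) := by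
        rw [← Finset.card_filter_add_card_filter_not (s := univ) (fun v => τ v = v)]
        congr 1
      have h3 : 1 < #(univ.filter fun v => τ v = v) := by omega
      obtain ⟨i, hi, j, hj, hij⟩ := Finset.one_lt_card.1 h3
      simp only [mem_filter, mem_univ, true_and] at hi hj
      refine le_trans (Av_mono (fun π : Perm V => cc c π) hτ hi hj hij) ?_
      have happ := mul_swap_apply hi hj
      have hlt : #(univ.filter fun v => (τ * swap i j) v = v) < n := by
        rw [← hn]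
        apply Finset.card_lt_card
        rw [Finset.ssubset_iff_of_subset]
        · refine ⟨i, by simp [hi], ?_⟩
          simp only [mem_filter, mem_univ, true_and]
          rw [happ, if_pos rfl]
          exact hij.symm
        · intro v hv
          simp only [mem_filter, mem_univ, true_and] at hv ⊢
          rw [happ] at hv
          by_cases h1 : v = i
          · rw [h1, hi]
          · by_cases h2 : v = j
            · rw [h2, hj]
            · rwa [if_neg h1, if_neg h2] at hv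
      exact ih _ hlt (τ * swap i j) (hτ.mul_swap hi hj) rfl

end conj

section transport
variable {V W : Type*} [Fintype V] [DecidableEq V] [Fintype W] [DecidableEq W]

lemma F_transport (c : (W → Bool) → ℕ) (e : V ≃ W) (τ : Perm V) :
    F c (e.permCongr τ) = F (fun σ : V → Bool => c (fun w => σ (e.symm w))) τ := by
  unfold F
  congr 1
  ext k
  constructor
  · rintro ⟨σ, h1, h2⟩
    refine ⟨fun v => σ (e v), ?_, ?_⟩
    · intro v hv
      have := h1 (e v)
      simp only [Equiv.permCongr_apply, Equiv.symm_apply_apply] at this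
      exact this (fun h' => hv (e.injective h'))
    · rw [← h2]
      show c (fun w => σ (e (e.symm w))) = c σ
      congr 1
      funext w
      simp
  · rintro ⟨σ, h1, h2⟩
    refine ⟨fun w => σ (e.symm w), ?_, h2⟩
    intro w hw
    simp only [Equiv.permCongr_apply] at hw ⊢
    have := h1 (e.symm w)
    simp only [Equiv.symm_apply_apply] at this ⊢
    refine this (fun h' => hw ?_)
    rw [h']
    simp

lemma M_transport (c : (W → Bool) → ℕ) (e : V ≃ W) (τ : Perm V) :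
    M c (e.permCongr τ) = M (fun σ : V → Bool => c (fun w => σ (e.symm w))) τ := by
  unfold M Av
  have hcard : Fintype.card (Perm W) = Fintype.card (Perm V) :=
    (Fintype.card_congr e.permCongr).symm
  rw [hcard]
  congr 1
  rw [← Equiv.sum_comp e.permCongr]
  refine Finset.sum_congr rfl fun π _ => ?_
  rw [F_transport]
  have hinv : ∀ v, (e.permCongr π)⁻¹ v = e (π⁻¹ (e.symm v)) := by
    intro v
    rw [Perm.inv_eq_iff_eq]
    simp only [Equiv.permCongr_apply, Equiv.symm_apply_apply]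
    rw [show π (π⁻¹ (e.symm v)) = e.symm v from π.apply_symm_apply _]
    simp
  congr 2
  funext σ
  show c (fun v => σ (e.symm ((e.permCongr π)⁻¹ v))) = c (fun w => σ (π⁻¹ (e.symm w)))
  congr 1
  funext v
  rw [hinv, Equiv.symm_apply_apply]

end transport

section split
variable {L R : Type*} [Fintype L] [DecidableEq L] [Fintype R] [DecidableEq R]

lemma M_eq_avg_A (c : (L ⊕ R → Bool) → ℕ) (τ : Perm (L ⊕ R)) :
    M c τ = (∑ π : Perm (L ⊕ R), A c (π * τ * π⁻¹)) / Fintype.card (Perm (L ⊕ R)) := by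
  unfold M Av
  congr 1
  have h1 : ∀ ρ : Perm L × Perm R, ∑ π : Perm (L ⊕ R), (F (cc c (hh ρ)) (π * τ * π⁻¹) : ℝ) =
      ∑ π : Perm (L ⊕ R), (F (cc c π) τ : ℝ) := by
    intro ρ
    rw [← Equiv.sum_comp (Equiv.mulLeft (hh ρ)) (fun π => (F (cc c π) τ : ℝ))]
    refine Finset.sum_congr rfl fun π _ => ?_
    rw [F_conj, ← cc_cc]
    rfl
  unfold A Av
  rw [← Finset.sum_div, Finset.sum_comm]
  simp_rw [h1]
  rw [Finset.sum_const, Finset.card_univ, nsmul_eq_mul]
  have : (0 : ℝ) < Fintype.card (Perm L × Perm R) := by exact_mod_cast Fintype.card_pos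
  field_simp

lemma ok_sum {τ₁ : Perm L} {τ₂ : Perm R} {σ₁ : L → Bool} {σ₂ : R → Bool} (h1 : Ok τ₁ σ₁)
    (h2 : Ok τ₂ σ₂) : Ok (hh (τ₁, τ₂)) (Sum.elim σ₁ σ₂) := by
  intro v hv
  cases v with
  | inl x =>
    simp only [hh, Equiv.sumCongr_apply, Sum.map_inl, ne_eq, Sum.inl.injEq, Sum.elim_inl] at hv ⊢
    exact h1 x hv
  | inr x =>
    simp only [hh, Equiv.sumCongr_apply, Sum.map_inr, ne_eq, Sum.inr.injEq, Sum.elim_inr] at hv ⊢
    exact h2 x hv

lemma F_split {c : (L ⊕ R → Bool) → ℕ} {c₁ : (L → Bool) → ℕ} {c₂ : (R → Bool) → ℕ}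
    (hs : ∀ σ₁ σ₂, c (Sum.elim σ₁ σ₂) ≤ c₁ σ₁ + c₂ σ₂ + 1) {τ₁ : Perm L} {τ₂ : Perm R}
    (h1 : Inv τ₁) (h2 : Inv τ₂) : F c (hh (τ₁, τ₂)) ≤ F c₁ τ₁ + F c₂ τ₂ + 1 := by
  obtain ⟨σ₁, a1, a2⟩ := F_spec c₁ h1
  obtain ⟨σ₂, b1, b2⟩ := F_spec c₂ h2
  rw [← a2, ← b2]
  exact le_trans (F_le c (ok_sum a1 b1)) (hs σ₁ σ₂)

lemma Inv.conj {V : Type*} {τ : Perm V} (hτ : Inv τ) (π : Perm V) : Inv (π * τ * π⁻¹) := by
  intro v
  simp only [Perm.mul_apply, inv_apply_self']
  rw [hτ]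
  exact π.apply_symm_apply v

/-- Configurations without mixed pairs. -/
lemma no_mixed {c : (L ⊕ R → Bool) → ℕ} {c₁ : (L → Bool) → ℕ} {c₂ : (R → Bool) → ℕ}
    (hs : ∀ σ₁ σ₂, c (Sum.elim σ₁ σ₂) ≤ c₁ σ₁ + c₂ σ₂ + 1)
    {σ₁ : Perm L} {σ₂ : Perm R} (h1 : Inv σ₁) (h1' : ∀ v, σ₁ v ≠ v) (h2 : Inv σ₂)
    (h2' : ∀ v, σ₂ v ≠ v) (τ : Perm (L ⊕ R)) (hτ : Inv τ) (hC : #(CL τ) = 0) :
    A c τ ≤ M c₁ σ₁ + M c₂ σ₂ + 1 := by
  have hmaps : Set.MapsTo τ (Set.range Sum.inl) (Set.range Sum.inl) := by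
    rintro _ ⟨x, rfl⟩
    have hx : Sum.inl x ∉ CL τ := by
      rw [Finset.card_eq_zero] at hC
      rw [hC]
      simp
    rw [mem_CL] at hx
    cases hv : τ (Sum.inl x) with
    | inl y => exact ⟨y, rfl⟩
    | inr y =>
      exfalso
      apply hx
      rw [hv]
      simp
  obtain ⟨⟨τ₁, τ₂⟩, hτ12⟩ := Perm.mem_sumCongrHom_range_of_perm_mapsTo_inl hmaps
  have hτe : τ = hh (τ₁, τ₂) := by
    rw [← hτ12]
    rfl
  have i1 : Inv τ₁ := by
    intro x
    have := hτ (Sum.inl x)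
    rw [hτe] at this
    simpa [hh] using this
  have i2 : Inv τ₂ := by
    intro x
    have := hτ (Sum.inr x)
    rw [hτe] at this
    simpa [hh] using this
  have hF : ∀ ρ : Perm L × Perm R, (F (cc c (hh ρ)) τ : ℝ) ≤
      F (cc c₁ ρ.1) τ₁ + F (cc c₂ ρ.2) τ₂ + 1 := by
    intro ρ
    have e1 : hh ρ * τ * (hh ρ)⁻¹ = hh (ρ.1 * τ₁ * ρ.1⁻¹, ρ.2 * τ₂ * ρ.2⁻¹) := by
      rw [hτe]
      ext v
      cases v <;> simp [hh]
    rw [← F_conj c (hh ρ) τ, e1, ← F_conj c₁, ← F_conj c₂]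
    exact_mod_cast F_split hs (i1.conj ρ.1) (i2.conj ρ.2)
  have n1 : (0 : ℝ) < Fintype.card (Perm L) := by exact_mod_cast Fintype.card_pos
  have n2 : (0 : ℝ) < Fintype.card (Perm R) := by exact_mod_cast Fintype.card_pos
  have hA : A c τ ≤ M c₁ τ₁ + M c₂ τ₂ + 1 := by
    unfold A M Av
    rw [Fintype.card_prod, Nat.cast_mul]
    rw [div_le_iff₀ (by positivity)]
    calc ∑ ρ : Perm L × Perm R, (F (cc c (hh ρ)) τ : ℝ)
        ≤ ∑ ρ : Perm L × Perm R, ((F (cc c₁ ρ.1) τ₁ : ℝ) + F (cc c₂ ρ.2) τ₂ + 1) :=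
          Finset.sum_le_sum fun ρ _ => hF ρ
      _ = _ := by
          rw [Finset.sum_add_distrib, Finset.sum_add_distrib, Fintype.sum_prod_type,
            Fintype.sum_prod_type]
          simp only [Finset.sum_const, Finset.card_univ, nsmul_eq_mul, mul_one,
            ← Finset.mul_sum, Fintype.card_prod, Nat.cast_mul]
          field_simp
  refine le_trans hA ?_
  have m1 := M_le_fpf (c := c₁) h1 h1' _ τ₁ i1 rfl
  have m2 := M_le_fpf (c := c₂) h2 h2' _ τ₂ i2 rfl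
  linarith

lemma card_CL_le (τ : Perm (L ⊕ R)) : #(CL τ) ≤ min (Fintype.card L) (Fintype.card R) := by
  refine le_min ?_ ?_
  · have : CL τ ⊆ (univ : Finset L).map ⟨Sum.inl, Sum.inl_injective⟩ := by
      intro v hv
      obtain ⟨x, rfl⟩ := Sum.isLeft_iff.1 (mem_CL.1 hv).1
      simp
    have := Finset.card_le_card this
    simpa using this
  · have : (CL τ).map ⟨τ, τ.injective⟩ ⊆ (univ : Finset R).map ⟨Sum.inr, Sum.inr_injective⟩ := by
      intro v hv
      obtain ⟨w, hw, rfl⟩ := Finset.mem_map.1 hv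
      obtain ⟨x, hx⟩ := Sum.isRight_iff.1 (mem_CL.1 hw).2
      simp only [Function.Embedding.coeFn_mk]
      rw [hx]
      simp
    have := Finset.card_le_card this
    simpa using this

/-- The near subadditivity inequality. -/
lemma near_sub {c : (L ⊕ R → Bool) → ℕ} (hc : FlipLip c) {c₁ : (L → Bool) → ℕ}
    {c₂ : (R → Bool) → ℕ} (hs : ∀ σ₁ σ₂, c (Sum.elim σ₁ σ₂) ≤ c₁ σ₁ + c₂ σ₂ + 1)
    {σ₁ : Perm L} {σ₂ : Perm R} (h1 : Inv σ₁) (h1' : ∀ v, σ₁ v ≠ v) (h2 : Inv σ₂)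
    (h2' : ∀ v, σ₂ v ≠ v) {τ : Perm (L ⊕ R)} (hτ : Inv τ) (hτ' : ∀ v, τ v ≠ v) :
    M c τ ≤ M c₁ σ₁ + M c₂ σ₂ + 1 +
      16 * (min (Fintype.card L) (Fintype.card R) : ℝ) ^ (3 / 4 : ℝ) := by
  rw [M_eq_avg_A]
  have hN : (0 : ℝ) < Fintype.card (Perm (L ⊕ R)) := by exact_mod_cast Fintype.card_pos
  rw [div_le_iff₀ hN]
  have hb : ∀ π : Perm (L ⊕ R), A c (π * τ * π⁻¹) ≤ M c₁ σ₁ + M c₂ σ₂ + 1 +
      16 * (min (Fintype.card L) (Fintype.card R) : ℝ) ^ (3 / 4 : ℝ) := by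
    intro π
    have hne : ∀ v, (π * τ * π⁻¹) v ≠ v := by
      intro v hv
      apply hτ' (π⁻¹ v)
      have : π⁻¹ ((π * τ * π⁻¹) v) = π⁻¹ v := by rw [hv]
      rwa [Perm.mul_apply, Perm.mul_apply, inv_apply_self'] at this
    have hL : #(PL (π * τ * π⁻¹)) = 0 := by
      rw [Finset.card_eq_zero, Finset.eq_empty_iff_forall_notMem]
      intro v hv
      exact hne v (mem_PL.1 hv).2
    have hR : #(PR (π * τ * π⁻¹)) = 0 := by
      rw [Finset.card_eq_zero, Finset.eq_empty_iff_forall_notMem]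
      intro v hv
      exact hne v (mem_PR.1 hv).2
    have := main_bound hc (no_mixed hs h1 h1' h2 h2') (hτ.conj π) hL hR
    refine le_trans this ?_
    have h3 : (#(CL (π * τ * π⁻¹)) : ℝ) ≤ min (Fintype.card L : ℝ) (Fintype.card R : ℝ) := by
      exact_mod_cast card_CL_le (π * τ * π⁻¹)
    have h4 := Real.rpow_le_rpow (by positivity) h3 (by norm_num : (0 : ℝ) ≤ 3 / 4)
    linarith
  calc ∑ π : Perm (L ⊕ R), A c (π * τ * π⁻¹) ≤ ∑ _π : Perm (L ⊕ R), (M c₁ σ₁ + M c₂ σ₂ + 1 +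
      16 * (min (Fintype.card L) (Fintype.card R) : ℝ) ^ (3 / 4 : ℝ)) :=
        Finset.sum_le_sum fun π _ => hb π
    _ = _ := by
        rw [Finset.sum_const, Finset.card_univ, nsmul_eq_mul]
        ring

end split

end Pool.Agent.Q298.Neck
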