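import Mathlib
import Pool.Agent.Q298.Neck.Basic
import Pool.Agent.Q298.Neck.Pot
import Pool.Agent.Q298.Neck.Limit

open Equiv Finset Filter Topology

namespace Pool.Agent.Q298.Neck

/-- The number of places where the colour changes along the path. -/
def pc (n : ℕ) (σ : Fin n → Bool) : ℕ :=
  #(univ.filter fun i : Fin n => ∃ h : (i : ℕ) + 1 < n, σ i ≠ σ ⟨i + 1, h⟩)

lemma pc_flipLip (n : ℕ) : FlipLip (pc n) := by
  intro σ v
  unfold pc
  have hsub : (univ.filter fun i : Fin n => ∃ h : (i : ℕ) + 1 < n,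
      Function.update σ v (!(σ v)) i ≠ Function.update σ v (!(σ v)) ⟨i + 1, h⟩) ⊆
      (univ.filter fun i : Fin n => ∃ h : (i : ℕ) + 1 < n, σ i ≠ σ ⟨i + 1, h⟩) ∪
      ({v} ∪ univ.filter fun i : Fin n => (i : ℕ) + 1 = v) := by
    intro i hi
    simp only [mem_filter, mem_univ, true_and, mem_union, mem_singleton] at hi ⊢
    obtain ⟨h, hne⟩ := hi
    by_cases h1 : i = v
    · exact Or.inr (Or.inl h1)
    by_cases h2 : (i : ℕ) + 1 = v
    · exact Or.inr (Or.inr h2)
    · left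
      refine ⟨h, ?_⟩
      rw [Function.update_of_ne h1, Function.update_of_ne] at hne
      · exact hne
      · intro h3
        apply h2
        rw [← h3]
  have h1 : #(univ.filter fun i : Fin n => (i : ℕ) + 1 = v) ≤ 1 := by
    rw [Finset.card_le_one]
    intro a ha b hb
    simp only [mem_filter, mem_univ, true_and] at ha hb
    exact Fin.ext (by omega)
  calc _ ≤ #((univ.filter fun i : Fin n => ∃ h : (i : ℕ) + 1 < n, σ i ≠ σ ⟨i + 1, h⟩) ∪
      ({v} ∪ univ.filter fun i : Fin n => (i : ℕ) + 1 = v)) := Finset.card_le_card hsub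
    _ ≤ #(univ.filter fun i : Fin n => ∃ h : (i : ℕ) + 1 < n, σ i ≠ σ ⟨i + 1, h⟩) +
      #({v} ∪ univ.filter fun i : Fin n => (i : ℕ) + 1 = v) := Finset.card_union_le _ _
    _ ≤ #(univ.filter fun i : Fin n => ∃ h : (i : ℕ) + 1 < n, σ i ≠ σ ⟨i + 1, h⟩) + 2 := by
      have := Finset.card_union_le ({v} : Finset (Fin n))
        (univ.filter fun i : Fin n => (i : ℕ) + 1 = v)
      rw [Finset.card_singleton] at this
      omega

lemma pc_le (n : ℕ) (σ : Fin n → Bool) : pc n σ ≤ n := by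
  unfold pc
  refine le_trans (Finset.card_filter_le _ _) ?_
  simp

/-- The identification of two consecutive blocks with a block. -/
def eab (a b : ℕ) : Fin (2 * a) ⊕ Fin (2 * b) ≃ Fin (2 * (a + b)) :=
  finSumFinEquiv.trans (finCongr (by ring))

lemma eab_inl (a b : ℕ) (x : Fin (2 * a)) : ((eab a b (Sum.inl x) : Fin (2 * (a + b))) : ℕ) = x := by
  simp [eab]

lemma eab_inr (a b : ℕ) (x : Fin (2 * b)) :
    ((eab a b (Sum.inr x) : Fin (2 * (a + b))) : ℕ) = 2 * a + x := by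
  simp [eab]

/-- The path cost transported to the disjoint union. -/
def pcs (a b : ℕ) (σ : Fin (2 * a) ⊕ Fin (2 * b) → Bool) : ℕ :=
  pc (2 * (a + b)) (fun i => σ ((eab a b).symm i))

lemma pcs_flipLip (a b : ℕ) : FlipLip (pcs a b) := by
  intro σ v
  unfold pcs
  have := pc_flipLip (2 * (a + b)) (fun i => σ ((eab a b).symm i)) (eab a b v)
  simp only [Equiv.symm_apply_apply] at this
  convert this using 2
  funext w
  by_cases hw : w = eab a b v
  · subst hw
    simp
  · rw [Function.update_of_ne hw, Function.update_of_ne]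
    intro h'
    apply hw
    rw [← h']
    simp

lemma pcs_split (a b : ℕ) (σ₁ : Fin (2 * a) → Bool) (σ₂ : Fin (2 * b) → Bool) :
    pcs a b (Sum.elim σ₁ σ₂) ≤ pc (2 * a) σ₁ + pc (2 * b) σ₂ + 1 := by
  classical
  unfold pcs pc
  set S₁ := univ.filter fun i : Fin (2 * a) => ∃ h : (i : ℕ) + 1 < 2 * a, σ₁ i ≠ σ₁ ⟨i + 1, h⟩
    with hS₁
  set S₂ := univ.filter fun i : Fin (2 * b) => ∃ h : (i : ℕ) + 1 < 2 * b, σ₂ i ≠ σ₂ ⟨i + 1, h⟩
    with hS₂
  have hsub : (univ.filter fun i : Fin (2 * (a + b)) => ∃ h : (i : ℕ) + 1 < 2 * (a + b),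
      Sum.elim σ₁ σ₂ ((eab a b).symm i) ≠ Sum.elim σ₁ σ₂ ((eab a b).symm ⟨i + 1, h⟩)) ⊆
      (S₁.image (fun x => eab a b (Sum.inl x)) ∪ S₂.image (fun x => eab a b (Sum.inr x))) ∪
        univ.filter fun i : Fin (2 * (a + b)) => (i : ℕ) + 1 = 2 * a := by
    intro i hi
    simp only [mem_filter, mem_univ, true_and] at hi
    obtain ⟨h, hne⟩ := hi
    obtain ⟨v, rfl⟩ := (eab a b).surjective i
    rw [Equiv.symm_apply_apply] at hne
    cases v with
    | inl x =>
      have hx := eab_inl a b x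
      by_cases hx2 : (x : ℕ) + 1 < 2 * a
      · refine Finset.mem_union_left _ (Finset.mem_union_left _ (Finset.mem_image.2 ⟨x, ?_, rfl⟩))
        rw [hS₁, mem_filter]
        refine ⟨mem_univ _, hx2, ?_⟩
        have hnext : (eab a b).symm ⟨(eab a b (Sum.inl x) : ℕ) + 1, h⟩ =
            Sum.inl ⟨(x : ℕ) + 1, hx2⟩ := by
          rw [Equiv.symm_apply_eq]
          apply Fin.ext
          have hr := eab_inl a b ⟨(x : ℕ) + 1, hx2⟩
          show (eab a b (Sum.inl x) : ℕ) + 1 = _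
          rw [hr, hx]
        rw [hnext] at hne
        simpa using hne
      · refine Finset.mem_union_right _ ?_
        rw [mem_filter]
        refine ⟨mem_univ _, ?_⟩
        rw [hx]
        have := x.2
        omega
    | inr x =>
      have hx := eab_inr a b x
      have hx2 : (x : ℕ) + 1 < 2 * b := by
        rw [hx] at h
        omega
      refine Finset.mem_union_left _ (Finset.mem_union_right _ (Finset.mem_image.2 ⟨x, ?_, rfl⟩))
      rw [hS₂, mem_filter]
      refine ⟨mem_univ _, hx2, ?_⟩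
      have hnext : (eab a b).symm ⟨(eab a b (Sum.inr x) : ℕ) + 1, h⟩ =
          Sum.inr ⟨(x : ℕ) + 1, hx2⟩ := by
        rw [Equiv.symm_apply_eq]
        apply Fin.ext
        have hr := eab_inr a b ⟨(x : ℕ) + 1, hx2⟩
        show (eab a b (Sum.inr x) : ℕ) + 1 = _
        rw [hr, hx]
        rfl
      rw [hnext] at hne
      simpa using hne
  have h1 : #(univ.filter fun i : Fin (2 * (a + b)) => (i : ℕ) + 1 = 2 * a) ≤ 1 := by
    rw [Finset.card_le_one]
    intro a' ha b' hb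
    simp only [mem_filter, mem_univ, true_and] at ha hb
    exact Fin.ext (by omega)
  refine le_trans (Finset.card_le_card hsub) ?_
  refine le_trans (Finset.card_union_le _ _) ?_
  have h2 := Finset.card_union_le (S₁.image (fun x => eab a b (Sum.inl x)))
    (S₂.image (fun x => eab a b (Sum.inr x)))
  have h3 := Finset.card_image_le (s := S₁) (f := fun x => eab a b (Sum.inl x))
  have h4 := Finset.card_image_le (s := S₂) (f := fun x => eab a b (Sum.inr x))
  omega

/-- The reference labelling of the positions. -/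
noncomputable def e0 (t : ℕ) : Fin (2 * t) ≃ Fin t × Bool :=
  Fintype.equivOfCardEq (by simp [mul_comm])

/-- Exchange of the two beads of every type. -/
def nt (t : ℕ) : Perm (Fin t × Bool) := (Equiv.refl (Fin t)).prodCongr Equiv.boolNot

lemma nt_apply (t : ℕ) (p : Fin t × Bool) : nt t p = (p.1, !p.2) := rfl

/-- The partner involution of a labelling. -/
def tau {t : ℕ} (e : Fin (2 * t) ≃ Fin t × Bool) : Perm (Fin (2 * t)) := e.symm.permCongr (nt t)

lemma tau_apply {t : ℕ} (e : Fin (2 * t) ≃ Fin t × Bool) (i : Fin (2 * t)) :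
    tau e i = e.symm ((e i).1, !(e i).2) := rfl

lemma tau_inv {t : ℕ} (e : Fin (2 * t) ≃ Fin t × Bool) : Inv (tau e) := by
  intro i
  rw [tau_apply, tau_apply]
  simp

lemma tau_ne {t : ℕ} (e : Fin (2 * t) ≃ Fin t × Bool) (i : Fin (2 * t)) : tau e i ≠ i := by
  rw [tau_apply]
  intro h
  rw [Equiv.symm_apply_eq] at h
  have := congrArg Prod.snd h
  simp at this

/-- The mean of the minimal number of colour changes. -/
noncomputable def mX (t : ℕ) : ℝ := M (pc (2 * t)) (tau (e0 t))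

lemma mX_nonneg (t : ℕ) : 0 ≤ mX t := by
  unfold mX M Av
  positivity

lemma mX_add (a b : ℕ) : mX (a + b) ≤ mX a + mX b + 1 +
    16 * (min (2 * a) (2 * b) : ℝ) ^ (3 / 4 : ℝ) := by
  set τ : Perm (Fin (2 * a) ⊕ Fin (2 * b)) := hh (tau (e0 a), tau (e0 b)) with hτ
  have h1 : Inv τ := by
    intro v
    cases v with
    | inl x => simp [hτ, hh, tau_inv (e0 a) x]
    | inr x => simp [hτ, hh, tau_inv (e0 b) x]
  have h2 : ∀ v, τ v ≠ v := by
    intro v
    cases v with
    | inl x => simpa [hτ, hh] using tau_ne (e0 a) x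
    | inr x => simpa [hτ, hh] using tau_ne (e0 b) x
  have h3 := near_sub (c := pcs a b) (pcs_flipLip a b) (pcs_split a b) (tau_inv (e0 a))
    (tau_ne (e0 a)) (tau_inv (e0 b)) (tau_ne (e0 b)) h1 h2
  have h4 : M (pcs a b) τ = M (pc (2 * (a + b))) ((eab a b).permCongr τ) :=
    (M_transport (pc (2 * (a + b))) (eab a b) τ).symm
  have h5 : M (pc (2 * (a + b))) ((eab a b).permCongr τ) = mX (a + b) := by
    refine M_fpf _ ?_ (tau_inv (e0 (a + b))) ?_ (tau_ne (e0 (a + b)))
    · intro v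
      simp [Equiv.permCongr_apply, h1 ((eab a b).symm v)]
    · intro v hv
      apply h2 ((eab a b).symm v)
      rw [Equiv.permCongr_apply] at hv
      exact (eab a b).injective (by rw [hv]; simp)
  rw [← h5, ← h4]
  refine le_trans h3 ?_
  simp only [Fintype.card_fin, Nat.cast_mul, Nat.cast_ofNat]
  exact le_rfl

/-- Concavity surplus. -/
lemma surplus {m n : ℝ} (hm : 0 < m) (hmn : m ≤ n) :
    (m + n) ^ (3 / 4 : ℝ) + m ^ (3 / 4 : ℝ) / 4 ≤ m ^ (3 / 4 : ℝ) + n ^ (3 / 4 : ℝ) := by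
  have hn : 0 < n := lt_of_lt_of_le hm hmn
  have h1 : (m + n) ^ (3 / 4 : ℝ) = n ^ (3 / 4 : ℝ) * (1 + m / n) ^ (3 / 4 : ℝ) := by
    rw [← Real.mul_rpow hn.le (by positivity)]
    congr 1
    field_simp
    ring
  have h2 : (1 + m / n) ^ (3 / 4 : ℝ) ≤ 1 + 3 / 4 * (m / n) :=
    rpow_one_add_le_one_add_mul_self (by
      have : 0 ≤ m / n := by positivity
      linarith) (by norm_num) (by norm_num)
  have h3 : n ^ (3 / 4 : ℝ) * (m / n) ≤ m ^ (3 / 4 : ℝ) := by
    have e1 : n ^ (3 / 4 : ℝ) * (m / n) = m * n ^ (-(1 / 4) : ℝ) := by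
      have e3 : m / n = m * n ^ (-1 : ℝ) := by rw [Real.rpow_neg_one]; rfl
      rw [e3, mul_left_comm, ← Real.rpow_add hn]
      norm_num
    have e2 : m ^ (3 / 4 : ℝ) = m * m ^ (-(1 / 4) : ℝ) := by
      nth_rw 2 [← Real.rpow_one m]
      rw [← Real.rpow_add hm]
      norm_num
    rw [e1, e2]
    apply mul_le_mul_of_nonneg_left _ hm.le
    exact Real.rpow_le_rpow_of_nonpos hm hmn (by norm_num)
  rw [h1]
  have h4 : n ^ (3 / 4 : ℝ) * (1 + m / n) ^ (3 / 4 : ℝ) ≤
      n ^ (3 / 4 : ℝ) * (1 + 3 / 4 * (m / n)) :=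
    mul_le_mul_of_nonneg_left h2 (by positivity)
  have h5 : n ^ (3 / 4 : ℝ) * (1 + 3 / 4 * (m / n)) =
      n ^ (3 / 4 : ℝ) + 3 / 4 * (n ^ (3 / 4 : ℝ) * (m / n)) := by ring
  linarith

lemma mX_add' {a b : ℕ} (ha : 0 < a) (hab : a ≤ b) :
    mX (a + b) + 132 * ((a + b : ℕ) : ℝ) ^ (3 / 4 : ℝ) ≤
      (mX a + 132 * (a : ℝ) ^ (3 / 4 : ℝ)) + (mX b + 132 * (b : ℝ) ^ (3 / 4 : ℝ)) := by
  have haR : (1 : ℝ) ≤ a := by exact_mod_cast ha
  have habR : (a : ℝ) ≤ b := by exact_mod_cast hab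
  have h1 := mX_add a b
  have h2 := surplus (by linarith : (0 : ℝ) < a) habR
  have hmin : min (2 * (a : ℝ)) (2 * b) = 2 * a := min_eq_left (by linarith)
  rw [hmin] at h1
  have h3 : (2 * (a : ℝ)) ^ (3 / 4 : ℝ) ≤ 2 * (a : ℝ) ^ (3 / 4 : ℝ) := by
    rw [Real.mul_rpow (by norm_num) (by positivity)]
    apply mul_le_mul_of_nonneg_right _ (by positivity)
    calc (2 : ℝ) ^ (3 / 4 : ℝ) ≤ (2 : ℝ) ^ (1 : ℝ) :=
          Real.rpow_le_rpow_of_exponent_le (by norm_num) (by norm_num)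
      _ = 2 := by norm_num
  have h4 : (1 : ℝ) ≤ (a : ℝ) ^ (3 / 4 : ℝ) := Real.one_le_rpow haR (by norm_num)
  push_cast
  linarith

lemma subadd : Subadditive (fun t : ℕ => mX t + 132 * (t : ℝ) ^ (3 / 4 : ℝ)) := by
  intro a b
  have h0 : ∀ t : ℕ, 0 ≤ mX t + 132 * (t : ℝ) ^ (3 / 4 : ℝ) := fun t =>
    add_nonneg (mX_nonneg t) (by positivity)
  rcases Nat.eq_zero_or_pos a with ha | ha
  · subst ha
    have := h0 0
    simp only [zero_add]
    linarith
  rcases Nat.eq_zero_or_pos b with hb | hb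
  · subst hb
    have := h0 0
    simp only [add_zero]
    linarith
  rcases le_total a b with h | h
  · exact mX_add' ha h
  · have := mX_add' hb h
    simp only [add_comm a b]
    linarith

/-- The limit of the means. -/
lemma exists_limit : ∃ c : ℝ, Tendsto (fun t : ℕ => mX t / t) atTop (𝓝 c) := by
  have hbdd : BddBelow (Set.range fun t : ℕ => (mX t + 132 * (t : ℝ) ^ (3 / 4 : ℝ)) / t) := by
    refine ⟨0, ?_⟩
    rintro _ ⟨t, rfl⟩
    exact div_nonneg (add_nonneg (mX_nonneg t) (by positivity)) (by positivity)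
  have h := subadd.tendsto_lim hbdd
  have h2 : Tendsto (fun t : ℕ => 132 * (t : ℝ) ^ (3 / 4 : ℝ) / t) atTop (𝓝 0) := by
    have h3 : Tendsto (fun t : ℕ => 132 * (t : ℝ) ^ (-(1 / 4) : ℝ)) atTop (𝓝 0) := by
      have := (tendsto_rpow_neg_atTop (by norm_num : (0 : ℝ) < 1 / 4)).comp
        (tendsto_natCast_atTop_atTop (R := ℝ))
      simpa using this.const_mul 132
    refine h3.congr' ?_
    filter_upwards [eventually_gt_atTop 0] with t ht
    have htR : (0 : ℝ) < t := by exact_mod_cast ht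
    rw [mul_div_assoc]
    congr 1
    nth_rw 3 [← Real.rpow_one (t : ℝ)]
    rw [← Real.rpow_sub htR]
    norm_num
  refine ⟨subadd.lim, ?_⟩
  have h4 := h.sub h2
  rw [sub_zero] at h4
  refine h4.congr fun t => ?_
  ring

end Pool.Agent.Q298.Neck
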