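import Mathlib
import Pool.Agent.Q298.Neck.Basic
import Pool.Agent.Q298.Neck.Pot
import Pool.Agent.Q298.Neck.Limit
import Pool.Agent.Q298.Neck.Path
import Pool.Agent.Q298.Neck.Conc

open Equiv Finset Filter Topology

namespace Pool.Agent.Q298.Neck

/-- Open necklaces with two beads of each of `t` types: words of length `2t` over `Fin t` in which
every symbol occurs exactly twice. -/
abbrev Necklace (t : ℕ) : Type :=
  {a : Fin (2 * t) → Fin t // ∀ c, #(univ.filter fun i => a i = c) = 2}

/-- Each of the two thieves receives exactly one bead of every type; `σ i` is the thief who gets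
the bead at position `i`. -/
def Fair {t : ℕ} (a : Fin (2 * t) → Fin t) (σ : Fin (2 * t) → Bool) : Prop :=
  ∀ (c : Fin t) (b : Bool), #(univ.filter fun i => a i = c ∧ σ i = b) = 1

/-- A fair split with `r` cuts. A cut `j` lies between the beads `j` and `j + 1`; between
consecutive cuts all beads go to the same thief. -/
def SplitsWith {t : ℕ} (a : Fin (2 * t) → Fin t) (r : ℕ) : Prop :=
  ∃ C : Finset ℕ, (∀ j ∈ C, j + 1 < 2 * t) ∧ #C = r ∧ ∃ σ : Fin (2 * t) → Bool,
    (∀ (i : ℕ) (h : i + 1 < 2 * t), i ∉ C → σ ⟨i, by omega⟩ = σ ⟨i + 1, h⟩) ∧ Fair a σ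

/-- The minimal number of cuts giving a fair split. -/
noncomputable def minCuts {t : ℕ} (a : Fin (2 * t) → Fin t) : ℕ := sInf {r | SplitsWith a r}

/-- The word of a labelling of the positions. -/
def word {t : ℕ} (e : Fin (2 * t) ≃ Fin t × Bool) : Fin (2 * t) → Fin t := fun i => (e i).1

lemma card_word {t : ℕ} (e : Fin (2 * t) ≃ Fin t × Bool) (c : Fin t) :
    #(univ.filter fun i => word e i = c) = 2 := by
  have : (univ.filter fun i => word e i = c) = {e.symm (c, true), e.symm (c, false)} := by
    ext i
    simp only [mem_filter, mem_univ, true_and, mem_insert, mem_singleton]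
    rw [Equiv.eq_symm_apply, Equiv.eq_symm_apply]
    constructor
    · intro h
      cases hb : (e i).2
      · right; exact Prod.ext h hb
      · left; exact Prod.ext h hb
    · intro h
      show (e i).1 = c
      rcases h with h | h <;> rw [h]
  rw [this, Finset.card_pair]
  intro h
  have := e.symm.injective h
  simp at this

/-- The necklace of a labelling. -/
def nk {t : ℕ} (e : Fin (2 * t) ≃ Fin t × Bool) : Necklace t := ⟨word e, card_word e⟩

lemma fair_iff {t : ℕ} (e : Fin (2 * t) ≃ Fin t × Bool) (σ : Fin (2 * t) → Bool) :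
    Fair (word e) σ ↔ Ok (tau e) σ := by
  constructor
  · intro h i _ heq
    rw [tau_apply] at heq
    have h1 := h (e i).1 (σ i)
    rw [Finset.card_eq_one] at h1
    obtain ⟨z, hz⟩ := h1
    have m1 : i ∈ ({z} : Finset (Fin (2 * t))) := by
      rw [← hz, mem_filter]
      exact ⟨mem_univ _, rfl, rfl⟩
    have m2 : tau e i ∈ ({z} : Finset (Fin (2 * t))) := by
      rw [← hz, mem_filter]
      refine ⟨mem_univ _, ?_, ?_⟩
      · simp [word, tau_apply]
      · rw [tau_apply]; exact heq
    rw [mem_singleton] at m1 m2
    exact tau_ne e i (m2.trans m1.symm)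
  · intro h c b
    have hne : σ (e.symm (c, true)) ≠ σ (e.symm (c, false)) := by
      have := h (e.symm (c, false)) (tau_ne e _)
      rw [tau_apply] at this
      simpa using this
    have hsub : ∀ i, word e i = c → i = e.symm (c, true) ∨ i = e.symm (c, false) := by
      intro i hi
      rw [Equiv.eq_symm_apply, Equiv.eq_symm_apply]
      cases hb : (e i).2
      · right; exact Prod.ext hi hb
      · left; exact Prod.ext hi hb
    have hw : ∀ b', word e (e.symm (c, b')) = c := fun b' => by simp [word]
    rw [Finset.card_eq_one]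
    by_cases hb : σ (e.symm (c, true)) = b
    · refine ⟨e.symm (c, true), ?_⟩
      ext i
      simp only [mem_filter, mem_univ, true_and, mem_singleton]
      constructor
      · rintro ⟨h1, h2⟩
        rcases hsub i h1 with h3 | h3
        · exact h3
        · exfalso
          rw [h3] at h2
          exact hne (hb.trans h2.symm)
      · rintro rfl
        exact ⟨hw _, hb⟩
    · refine ⟨e.symm (c, false), ?_⟩
      have hb' : σ (e.symm (c, false)) = b := by
        cases h1 : σ (e.symm (c, true)) <;> cases h2 : σ (e.symm (c, false)) <;>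
          cases b <;> simp_all
      ext i
      simp only [mem_filter, mem_univ, true_and, mem_singleton]
      constructor
      · rintro ⟨h1, h2⟩
        rcases hsub i h1 with h3 | h3
        · exfalso
          rw [h3] at h2
          exact hb h2
        · exact h3
      · rintro rfl
        exact ⟨hw _, hb'⟩

/-- The minimal number of cuts is the minimal number of colour changes. -/
lemma minCuts_eq {t : ℕ} (e : Fin (2 * t) ≃ Fin t × Bool) :
    minCuts (word e) = F (pc (2 * t)) (tau e) := by
  apply le_antisymm
  · obtain ⟨σ, h1, h2⟩ := F_spec (pc (2 * t)) (tau_inv e)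
    rw [← h2]
    apply Nat.sInf_le
    refine ⟨(univ.filter fun i : Fin (2 * t) => ∃ h : (i : ℕ) + 1 < 2 * t,
      σ i ≠ σ ⟨i + 1, h⟩).map Fin.valEmbedding, ?_, ?_, σ, ?_, (fair_iff e σ).2 h1⟩
    · intro j hj
      rw [Finset.mem_map] at hj
      obtain ⟨i, hi, rfl⟩ := hj
      rw [mem_filter] at hi
      obtain ⟨-, h, -⟩ := hi
      exact h
    · rw [Finset.card_map]
      rfl
    · intro i h hi
      by_contra hne
      apply hi
      rw [Finset.mem_map]
      refine ⟨⟨i, by omega⟩, ?_, rfl⟩
      rw [mem_filter]
      exact ⟨mem_univ _, h, hne⟩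
  · apply le_csInf
    · obtain ⟨σ, h1, h2⟩ := F_spec (pc (2 * t)) (tau_inv e)
      refine ⟨_, Finset.range (2 * t - 1), ?_, rfl, σ, ?_, (fair_iff e σ).2 h1⟩
      · intro j hj
        rw [Finset.mem_range] at hj
        omega
      · intro i h hi
        exfalso
        apply hi
        rw [Finset.mem_range]
        omega
    · rintro r ⟨C, hC1, hC2, σ, hσ, hfair⟩
      refine le_trans (F_le _ ((fair_iff e σ).1 hfair)) ?_
      rw [← hC2]
      unfold pc
      rw [← Finset.card_map Fin.valEmbedding]
      apply Finset.card_le_card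
      intro j hj
      rw [Finset.mem_map] at hj
      obtain ⟨i, hi, rfl⟩ := hj
      rw [mem_filter] at hi
      obtain ⟨-, h, hne⟩ := hi
      by_contra hnot
      exact hne (hσ i h hnot)

/-- Every necklace comes from a labelling. -/
lemma nk_surj {t : ℕ} : Function.Surjective (nk : (Fin (2 * t) ≃ Fin t × Bool) → Necklace t) := by
  rintro ⟨a, ha⟩
  have hfib : ∀ c : Fin t, Nonempty ({i // a i = c} ≃ {p : Fin t × Bool // p.1 = c}) := by
    intro c
    refine ⟨Fintype.equivOfCardEq ?_⟩
    rw [Fintype.card_subtype, ha c, Fintype.card_subtype]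
    have : (univ.filter fun p : Fin t × Bool => p.1 = c) = {(c, true), (c, false)} := by
      ext ⟨x, b⟩
      cases b <;> simp
    rw [this, Finset.card_pair]
    simp
  refine ⟨Equiv.ofFiberEquiv (f := a) (g := Prod.fst) (fun c => (hfib c).some), ?_⟩
  apply Subtype.ext
  funext i
  exact Equiv.ofFiberEquiv_map (f := a) (g := Prod.fst) (fun c => (hfib c).some) i

/-- Relabellings which preserve the type. -/
abbrev Stab (t : ℕ) : Type := {g : Perm (Fin t × Bool) // ∀ p, (g p).1 = p.1}

lemma card_fiber {t : ℕ} (a : Necklace t) :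
    #(univ.filter fun e : Fin (2 * t) ≃ Fin t × Bool => nk e = a) = Fintype.card (Stab t) := by
  obtain ⟨e₀, rfl⟩ := nk_surj a
  rw [← Fintype.card_subtype]
  refine (Fintype.card_congr ?_).symm
  refine ⟨fun g => ⟨e₀.trans g.1, ?_⟩, fun e => ⟨e₀.symm.trans e.1, ?_⟩, ?_, ?_⟩
  · apply Subtype.ext
    funext i
    show (g.1 (e₀ i)).1 = (e₀ i).1
    exact g.2 _
  · intro p
    have h := congrArg Subtype.val e.2
    have h2 := congrFun h (e₀.symm p)
    show (e.1 (e₀.symm p)).1 = p.1
    have h3 : (e.1 (e₀.symm p)).1 = (e₀ (e₀.symm p)).1 := h2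
    rw [h3, Equiv.apply_symm_apply]
  · intro g
    apply Subtype.ext
    ext p <;> simp
  · intro e
    apply Subtype.ext
    ext p <;> simp

open Classical in
lemma card_event {t : ℕ} (P : Necklace t → Prop) :
    #(univ.filter fun e : Fin (2 * t) ≃ Fin t × Bool => P (nk e)) =
      #(univ.filter fun a : Necklace t => P a) * Fintype.card (Stab t) := by
  have hmaps : ((univ.filter fun e : Fin (2 * t) ≃ Fin t × Bool => P (nk e) : Finset _) :
      Set (Fin (2 * t) ≃ Fin t × Bool)).MapsTo nk
      ((univ.filter fun a : Necklace t => P a : Finset _) : Set (Necklace t)) := by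
    intro e he
    simpa using he
  rw [Finset.card_eq_sum_card_fiberwise hmaps]
  have : ∀ a ∈ (univ.filter fun a : Necklace t => P a),
      #((univ.filter fun e : Fin (2 * t) ≃ Fin t × Bool => P (nk e)).filter fun e => nk e = a) =
        Fintype.card (Stab t) := by
    intro a ha
    rw [← card_fiber a]
    congr 1
    ext e
    simp only [mem_filter, mem_univ, true_and] at ha ⊢
    constructor
    · rintro ⟨-, h⟩; exact h
    · intro h
      exact ⟨h ▸ ha, h⟩
  rw [Finset.sum_congr rfl this, Finset.sum_const, smul_eq_mul]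

/-- The bijection between relabellings and labellings. -/
noncomputable def pe (t : ℕ) : Perm (Fin (2 * t)) ≃ (Fin (2 * t) ≃ Fin t × Bool) where
  toFun π := π.symm.trans (e0 t)
  invFun e := (e.trans (e0 t).symm).symm
  left_inv π := by ext x; simp
  right_inv e := by ext x <;> simp

lemma tau_pe (t : ℕ) (π : Perm (Fin (2 * t))) : tau (pe t π) = π * tau (e0 t) * π⁻¹ := by
  ext1 i
  rw [tau_apply, Perm.mul_apply, Perm.mul_apply, tau_apply]
  rfl

open Classical in
/-- The probability of an event for the random necklace in terms of random relabellings. -/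
lemma prob_eq {t : ℕ} (Q : ℕ → Prop) :
    (#(univ.filter fun a : Necklace t => Q (minCuts a.1)) : ℝ) / Fintype.card (Necklace t) =
      (#(univ.filter fun π : Perm (Fin (2 * t)) => Q (F (cc (pc (2 * t)) π) (tau (e0 t)))) : ℝ) /
        Fintype.card (Perm (Fin (2 * t))) := by
  have h1 := card_event (t := t) (fun a => Q (minCuts a.1))
  have h2 := card_event (t := t) (fun _ => True)
  simp only [Finset.filter_true, Finset.card_univ] at h2
  have h3 : #(univ.filter fun e : Fin (2 * t) ≃ Fin t × Bool => Q (minCuts (nk e).1)) =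
      #(univ.filter fun π : Perm (Fin (2 * t)) => Q (F (cc (pc (2 * t)) π) (tau (e0 t)))) := by
    symm
    apply Finset.card_bij (fun π _ => pe t π)
    · intro π hπ
      simp only [mem_filter, mem_univ, true_and] at hπ ⊢
      show Q (minCuts (word (pe t π)))
      rw [minCuts_eq, tau_pe, F_conj]
      exact hπ
    · intro π _ κ _ h
      exact (pe t).injective h
    · intro e he
      obtain ⟨π, rfl⟩ := (pe t).surjective e
      refine ⟨π, ?_, rfl⟩
      simp only [mem_filter, mem_univ, true_and] at he ⊢
      have he' : Q (minCuts (word (pe t π))) := he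
      rw [minCuts_eq, tau_pe, F_conj] at he'
      exact he'
  have h4 : Fintype.card (Fin (2 * t) ≃ Fin t × Bool) = Fintype.card (Perm (Fin (2 * t))) :=
    (Fintype.card_congr (pe t)).symm
  rw [h3] at h1
  rw [h4] at h2
  have hS : (0 : ℝ) < Fintype.card (Stab t) := by
    have : Nonempty (Stab t) := ⟨⟨1, fun p => rfl⟩⟩
    exact_mod_cast Fintype.card_pos
  rw [h1, h2]
  push_cast
  rw [mul_div_mul_right _ _ hS.ne']

end Pool.Agent.Q298.Neck
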